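import Pool.Agent.MP_c1891a_nt.H83.Gap

/-! Elimination with control of the degree and of the size of the resultant. -/

namespace Pool.Agent.MP_c1891a_nt.H83

open Finset Polynomial

/-- the exponents lie in a window -/
def Win {O : Type} [CommRing O] (p : O[X]) (c r : ℝ) : Prop :=
  ∀ e : ℕ, p.coeff e ≠ 0 → |e - c| ≤ r

section

variable {O : Type} [CommRing O]

theorem Win.mul {p q : O[X]} {c r c' r' : ℝ} (h : Win p c r) (h' : Win q c' r') :
    Win (p * q) (c + c') (r + r') := by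
  intro e he
  rw [coeff_mul] at he
  obtain ⟨x, hx, h0⟩ := exists_ne_zero_of_sum_ne_zero he
  have h1 := abs_le.1 (h _ (left_ne_zero_of_mul h0))
  have h2 := abs_le.1 (h' _ (right_ne_zero_of_mul h0))
  rw [← mem_antidiagonal.1 hx, abs_le]
  push_cast
  constructor <;> linarith [h1.1, h1.2, h2.1, h2.2]

theorem Win.prod {ι : Type} (s : Finset ι) {p : ι → O[X]} {c : ι → ℝ} {r : ℝ}
    (h : ∀ i ∈ s, Win (p i) (c i) r) : Win (∏ i ∈ s, p i) (∑ i ∈ s, c i) (s.card * r) := by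
  classical
  induction s using Finset.induction_on with
  | empty =>
    intro e he
    have : e = 0 := by
      by_contra h0
      simp [coeff_one, h0] at he
    simp [this]
  | insert a s ha ih =>
    rw [prod_insert ha, sum_insert ha, card_insert_of_notMem ha]
    have := (h a (mem_insert_self _ _)).mul (ih fun i hi => h i (mem_insert_of_mem hi))
    convert this using 1
    push_cast
    ring

theorem Win.sum {ι : Type} (s : Finset ι) {p : ι → O[X]} {c r : ℝ}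
    (h : ∀ i ∈ s, Win (p i) c r) : Win (∑ i ∈ s, p i) c r := by
  intro e he
  rw [finsetSum_coeff] at he
  obtain ⟨x, hx, h0⟩ := exists_ne_zero_of_sum_ne_zero he
  exact h x hx e h0

theorem win_det {n : Type} [Fintype n] [DecidableEq n] (A : Matrix n n O[X]) (x y : n → ℝ) {r : ℝ}
    (h : ∀ i j, Win (A i j) (x i - y j) r) :
    Win A.det (∑ i, x i - ∑ i, y i) (Fintype.card n * r) := by
  rw [Matrix.det_apply]
  refine Win.sum _ fun σ _ => ?_
  have := Win.prod univ (p := fun i => A (σ i) i) (c := fun i => x (σ i) - y i) fun i _ => h _ _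
  rw [sum_sub_distrib, Equiv.sum_comp σ x, card_univ] at this
  intro e he
  refine this e fun h0 => he ?_
  rw [Units.smul_def, coeff_smul, h0, smul_zero]

end

theorem norm_det_le {n : Type} [Fintype n] [DecidableEq n] (A : Matrix n n ℂ) {H : ℝ}
    (h : ∀ j, ∑ i, ‖A i j‖ ≤ H) : ‖A.det‖ ≤ H ^ Fintype.card n := by
  rw [Matrix.det_apply]
  refine (norm_sum_le _ _).trans ?_
  have h1 : ∀ σ : Equiv.Perm n, ‖Equiv.Perm.sign σ • ∏ i, A (σ i) i‖ = ∏ i, ‖A (σ i) i‖ := by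
    intro σ
    rcases Int.units_eq_one_or (Equiv.Perm.sign σ) with h | h <;> simp [h]
  simp only [h1]
  calc ∑ σ : Equiv.Perm n, ∏ i, ‖A (σ i) i‖
      = ∑ f ∈ univ.map ⟨fun σ : Equiv.Perm n => (σ : n → n), DFunLike.coe_injective⟩,
          ∏ i, ‖A (f i) i‖ := by rw [sum_map]; rfl
    _ ≤ ∑ f : n → n, ∏ i, ‖A (f i) i‖ :=
        sum_le_sum_of_subset_of_nonneg (subset_univ _) fun _ _ _ =>
          prod_nonneg fun _ _ => norm_nonneg _
    _ = ∏ j, ∑ i, ‖A i j‖ := (Fintype.prod_sum fun j i => ‖A i j‖).symm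
    _ ≤ ∏ _j : n, H := prod_le_prod (fun _ _ => sum_nonneg fun _ _ => norm_nonneg _) fun j _ => h j
    _ = _ := by simp

section

variable {O S : Type} [CommRing O] {φ : S → O →+* ℂ}

/-- windows and sizes of the coefficients -/
structure Nice (φ : S → O →+* ℂ) (G : O[X][X]) (l c ρ H : ℝ) : Prop where
  win : ∀ j : ℕ, Win (G.coeff j) (l * j + c) ρ
  nrm : ∀ σ (u : ℂ), ‖u‖ = 1 → ∀ s : Finset ℕ, ∑ j ∈ s, ‖eval₂RingHom (φ σ) u (G.coeff j)‖ ≤ H

theorem Nice.shift {G : O[X][X]} {l c ρ H : ℝ} {t : ℕ} (h : Nice φ (X ^ t * G) l c ρ H) :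
    Nice φ G l (c + l * t) ρ H := by
  refine ⟨fun j => ?_, fun σ u hu s => ?_⟩
  · have := h.win (j + t)
    rw [coeff_X_pow_mul] at this
    convert this using 1
    push_cast
    ring
  · have := h.nrm σ u hu (s.map (addRightEmbedding t))
    simpa [sum_map, coeff_X_pow_mul] using this

theorem Nice.col {G : O[X][X]} {l c ρ H : ℝ} (h : Nice φ G l c ρ H) (σ : S) {u : ℂ} (hu : ‖u‖ = 1)
    (N j n : ℕ) : ∑ i : Fin N, ‖eval₂RingHom (φ σ) u
      (if (i : ℕ) ∈ Set.Icc j (j + n) then G.coeff (i - j) else 0)‖ ≤ H := by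
  classical
  refine le_trans (le_of_eq ?_) (h.nrm σ u hu
    ((univ.filter fun i : Fin N => (i : ℕ) ∈ Set.Icc j (j + n)).image fun i : Fin N => i - j))
  rw [sum_image, sum_filter]
  · refine sum_congr rfl fun i _ => ?_
    split_ifs <;> simp
  · intro a ha b hb hab
    simp only [coe_filter, mem_univ, true_and, Set.mem_ofPred_eq, Set.mem_Icc] at ha hb hab
    ext
    omega

theorem Nice.colW {G : O[X][X]} {l c ρ H : ℝ} (h : Nice φ G l c ρ H) (i j n : ℕ) :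
    Win (if i ∈ Set.Icc j (j + n) then G.coeff (i - j) else 0) (l * i - (l * j - c)) ρ := by
  split_ifs with h1
  · convert h.win (i - j) using 1
    rw [Nat.cast_sub h1.1]
    ring
  · intro e he
    simp at he

theorem core [IsDomain O] [Fintype S] (L : LS φ) {g : ℕ} (hg : Fintype.card S ≤ g) (σ₀ : S)
    {G₁ G₂ : O[X][X]} {l c₁ c₂ ρ H : ℝ} (n₁ : Nice φ G₁ l c₁ ρ H) (n₂ : Nice φ G₂ l c₂ ρ H)
    (h₁ : G₁.coeff 0 ≠ 0) (h₂ : G₂ ≠ 0) {D W m : ℕ} (hD : G₁.natDegree + G₂.natDegree ≤ D)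
    (hρ : 0 ≤ ρ) (hW : 2 * D * ρ ≤ W) (hH : 1 ≤ H)
    (fin : {z : ℂ × ℂ | z.1 ≠ 0 ∧ z.2 ≠ 0 ∧ (G₁.map (eval₂RingHom (φ σ₀) z.2)).eval z.1 = 0 ∧
      (G₂.map (eval₂RingHom (φ σ₀) z.2)).eval z.1 = 0}.Finite)
    {θ : O} (hθ : ∀ σ, ‖φ σ θ‖ ≤ 1) {p q : ℂ} (hq : q ≠ 0)
    (z₁ : (G₁.map (eval₂RingHom (φ σ₀) q)).eval p = 0)
    (z₂ : (G₂.map (eval₂RingHom (φ σ₀) q)).eval p = 0) (hne : q ^ m ≠ φ σ₀ θ) :
    1 ≤ ‖q ^ m - φ σ₀ θ‖ * (2 ^ W * (H ^ D) ^ m) ^ g := by
  classical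
  have hG₁ : G₁ ≠ 0 := fun h => h₁ (by simp [h])
  have ev : ∀ σ (u : ℂ) (f : O[X]), eval₂RingHom (φ σ) u f = (f.map (φ σ)).eval u :=
    fun σ u f => by rw [eval_map]; rfl
  set R := resultant G₁ G₂ with hR
  have hRe : ∀ σ (u : ℂ), eval₂RingHom (φ σ) u R = resultant (G₁.map (eval₂RingHom (φ σ) u))
      (G₂.map (eval₂RingHom (φ σ) u)) G₁.natDegree G₂.natDegree :=
    fun σ u => (resultant_map_map _ _ _ _ _).symm
  have hR0 : R ≠ 0 := by
    intro h0
    have hf : (X * G₁.coeff 0 * G₁.leadingCoeff * G₂.leadingCoeff).map (φ σ₀) ≠ 0 :=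
      (Polynomial.map_ne_zero_iff (L.inj σ₀)).2 (mul_ne_zero (mul_ne_zero (mul_ne_zero X_ne_zero h₁)
        (leadingCoeff_ne_zero.2 hG₁)) (leadingCoeff_ne_zero.2 h₂))
    refine Set.infinite_univ (α := ℂ) (((fin.image Prod.snd).union (finite_setOfPred_isRoot hf)).subset
      fun u _ => ?_)
    by_contra hu
    simp only [Set.mem_union, not_or, Set.mem_ofPred_eq, IsRoot.def, ← ev, map_mul, mul_eq_zero,
      coe_eval₂RingHom, eval₂_X] at hu
    obtain ⟨hu, ⟨⟨u0, u1⟩, u2⟩, u3⟩ := hu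
    have d₁ := natDegree_map_of_leadingCoeff_ne_zero (eval₂RingHom (φ σ₀) u) u2
    have d₂ := natDegree_map_of_leadingCoeff_ne_zero (eval₂RingHom (φ σ₀) u) u3
    have := hRe σ₀ u
    rw [h0, map_zero, ← d₁, ← d₂, eq_comm, resultant_eq_zero_iff,
      isCoprime_iff_aeval_ne_zero_of_isAlgClosed ℂ ℂ] at this
    obtain ⟨a, ha⟩ := not_forall.1 this.2
    simp only [not_or, not_not, coe_aeval_eq_eval] at ha
    refine hu ⟨(a, u), ⟨fun h => u1 ?_, u0, ha.1, ha.2⟩, rfl⟩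
    have h3 := ha.1
    rw [show a = 0 from h, ← coeff_zero_eq_eval_zero, coeff_map] at h3
    exact h3
  have hRq : (R.map (φ σ₀)).eval q = 0 := by
    by_cases hd : G₁.natDegree ≠ 0 ∨ G₂.natDegree ≠ 0
    · obtain ⟨a, b, -, -, e⟩ := exists_mul_add_mul_eq_C_resultant _ _
        (natDegree_map_le (p := G₁) (f := eval₂RingHom (φ σ₀) q))
        (natDegree_map_le (p := G₂) (f := eval₂RingHom (φ σ₀) q)) hd
      have := congrArg (eval p) e
      rw [eval_add, eval_mul, eval_mul, z₁, z₂, eval_C, ← hRe, ev] at this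
      rw [← this]
      ring
    · exfalso
      simp only [not_or, not_not] at hd
      obtain ⟨a, rfl⟩ := natDegree_eq_zero.1 hd.1
      obtain ⟨b, rfl⟩ := natDegree_eq_zero.1 hd.2
      refine Set.infinite_univ (α := ℂ) (((fin.image Prod.fst).union (Set.finite_singleton 0)).subset
        fun u _ => ?_)
      by_cases hu : u = 0
      · exact Or.inr hu
      · exact Or.inl ⟨(u, q), ⟨hu, hq, by simpa using z₁, by simpa using z₂⟩, rfl⟩
  have hwin : ∃ c, Win R c (D * ρ) := by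
    have := win_det (sylvester G₁ G₂ G₁.natDegree G₂.natDegree) (fun i => l * (i : ℕ))
      (fun j => j.addCases (fun j₁ => l * (j₁ : ℕ) - c₂) fun j₁ => l * (j₁ : ℕ) - c₁) (r := ρ)
      fun i j => by
        induction j using Fin.addCases with
        | left j => simpa only [sylvester, Matrix.of_apply, Fin.addCases_left] using n₂.colW _ _ _
        | right j => simpa only [sylvester, Matrix.of_apply, Fin.addCases_right] using n₁.colW _ _ _
    refine ⟨_, fun e he => (this e he).trans ?_⟩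
    rw [Fintype.card_fin]
    exact mul_le_mul_of_nonneg_right (by exact_mod_cast hD) hρ
  have hM : ∀ σ, (R.map (φ σ)).mahlerMeasure ≤ H ^ D := fun σ => by
    refine mahler_le_of_circle _ (by positivity) fun u hu => ?_
    rw [← ev, hR, resultant, RingHom.map_det]
    refine (norm_det_le _ (H := H) fun j => ?_).trans ?_
    · induction j using Fin.addCases with
      | left j =>
        simpa only [sylvester, RingHom.mapMatrix_apply, Matrix.map_apply, Matrix.of_apply,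
          Fin.addCases_left] using n₂.col σ hu _ _ _
      | right j =>
        simpa only [sylvester, RingHom.mapMatrix_apply, Matrix.map_apply, Matrix.of_apply,
          Fin.addCases_right] using n₁.col σ hu _ _ _
    · rw [Fintype.card_fin]
      exact pow_le_pow_right₀ hH hD
  obtain ⟨c, hc⟩ := hwin
  obtain ⟨R₀, e, hnd⟩ := exists_eq_pow_rootMultiplicity_mul_and_not_dvd R hR0 0
  generalize R.rootMultiplicity 0 = κ at e
  rw [map_zero, sub_zero] at e hnd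
  have h00 : R₀ ≠ 0 := fun h => hR0 (by rw [e, h, mul_zero])
  have hd : R₀.natDegree ≤ W := by
    have a1 := abs_le.1 (hc (0 + κ) (by rw [e, coeff_X_pow_mul]; rwa [X_dvd_iff] at hnd))
    have a2 := abs_le.1 (hc (R₀.natDegree + κ) (by
      rw [e, coeff_X_pow_mul]; exact leadingCoeff_ne_zero.2 h00))
    push_cast at a1 a2
    have : (R₀.natDegree : ℝ) ≤ W := by linarith [a1.1, a2.2]
    exact_mod_cast this
  have e' : ∀ σ, R.map (φ σ) = X ^ κ * R₀.map (φ σ) := fun σ => by rw [e]; simp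
  refine gap L hg σ₀ h00 hd (one_le_pow₀ hH) (fun σ => ?_) hθ ?_ hne
  · have := hM σ
    have h1 : ∀ k : ℕ, (X ^ k : ℂ[X]).mahlerMeasure = 1 := fun k => by
      induction k with
      | zero => simp
      | succ k ih =>
        have := mahlerMeasure_X_sub_C 0
        rw [map_zero, sub_zero] at this
        rw [pow_succ, mahlerMeasure_mul, ih, this]
        simp
    rwa [e', mahlerMeasure_mul, h1, one_mul] at this
  · rw [e', eval_mul, eval_pow, eval_X] at hRq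
    exact (mul_eq_zero.1 hRq).resolve_left (pow_ne_zero _ hq)

end

/-- the value of an integer combination of monomials in three variables -/
noncomputable def L3 {ι : Type} (I : Finset ι) (s e α β : ι → ℤ) (ζ p q : ℂ) : ℂ :=
  ∑ i ∈ I, (s i : ℂ) * ζ ^ e i * p ^ α i * q ^ β i

theorem exists_nice {O S : Type} [CommRing O] [IsDomain O] {φ : S → O →+* ℂ} (σ₀ : S) {Y : ℤ → O} {ζ : ℂ}
    (hY : ∀ e, φ σ₀ (Y e) = ζ ^ e) (hY' : ∀ σ e, ‖φ σ (Y e)‖ = 1) {ι : Type} (I : Finset ι)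
    (s e α β : ι → ℤ) {d : ℕ} {l ρ H : ℝ} (h : ∀ i ∈ I, |α i| ≤ d ∧ |β i - l * α i| ≤ ρ)
    (hH : ∑ i ∈ I, |(s i : ℝ)| ≤ H) (hne : ∃ p q : ℂ, p ≠ 0 ∧ q ≠ 0 ∧ L3 I s e α β ζ p q ≠ 0) :
    ∃ (G : O[X][X]) (c : ℝ), Nice φ G l c ρ H ∧ G.coeff 0 ≠ 0 ∧ G.natDegree ≤ 2 * d ∧
      ∀ p q : ℂ, p ≠ 0 → q ≠ 0 →
        ((G.map (eval₂RingHom (φ σ₀) q)).eval p = 0 ↔ L3 I s e α β ζ p q = 0) := by
  classical
  obtain ⟨b, hb⟩ : ∃ b : ℕ, ∀ i ∈ I, 0 ≤ β i + b :=
    ⟨I.sup fun i => (β i).natAbs, fun i hi => by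
      have : (β i).natAbs ≤ I.sup fun i => (β i).natAbs := le_sup (f := fun i => (β i).natAbs) hi
      omega⟩
  have ha : ∀ i ∈ I, 0 ≤ α i + d := fun i hi => by have := abs_le.1 (h i hi).1; omega
  set F : O[X][X] := ∑ i ∈ I, monomial (α i + d).toNat (monomial (β i + b).toNat (s i * Y (e i)))
    with hF
  have hev : ∀ p q : ℂ, p ≠ 0 → q ≠ 0 → (F.map (eval₂RingHom (φ σ₀) q)).eval p =
      p ^ d * q ^ b * L3 I s e α β ζ p q := by
    intro p q hp hq
    rw [hF, Polynomial.map_sum, eval_finsetSum, L3, mul_sum]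
    refine sum_congr rfl fun i hi => ?_
    rw [map_monomial, eval_monomial, coe_eval₂RingHom, eval₂_monomial, map_mul, hY, map_intCast,
      ← zpow_natCast, ← zpow_natCast, Int.toNat_of_nonneg (ha i hi), Int.toNat_of_nonneg (hb i hi),
      zpow_add₀ hp, zpow_add₀ hq, zpow_natCast, zpow_natCast]
    ring
  have hc : ∀ j, F.coeff j = ∑ i ∈ I with (α i + d).toNat = j,
      monomial (β i + b).toNat (s i * Y (e i)) := fun j => by
    rw [hF, finsetSum_coeff, sum_filter]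
    exact sum_congr rfl fun i _ => coeff_monomial
  have hN : Nice φ F l (b - l * d) ρ H := by
    refine ⟨fun j => ?_, fun σ u hu t => ?_⟩
    · rw [hc]
      refine Win.sum _ fun i hi' x hx => ?_
      obtain ⟨hi, rfl⟩ := mem_filter.1 hi'
      rw [coeff_monomial] at hx
      have h1 : (β i + b).toNat = x := by
        by_contra h1
        exact hx (if_neg h1)
      have h2 : (x : ℝ) = β i + b := by
        rw [← h1]; exact_mod_cast Int.toNat_of_nonneg (hb i hi)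
      have h3 : (((α i + d).toNat : ℕ) : ℝ) = α i + d := by
        exact_mod_cast Int.toNat_of_nonneg (ha i hi)
      rw [h2, h3]
      convert (h i hi).2 using 2
      ring
    · refine le_trans ?_ hH
      calc _ ≤ ∑ j ∈ t, ∑ i ∈ I with (α i + d).toNat = j, |(s i : ℝ)| := by
            refine sum_le_sum fun j _ => ?_
            rw [hc, map_sum]
            refine norm_sum_le_of_le _ fun i _ => le_of_eq ?_
            rw [coe_eval₂RingHom, eval₂_monomial, map_mul, norm_mul, norm_mul, hY', norm_pow, hu,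
              map_intCast, Complex.norm_intCast]
            simp
        _ = ∑ i ∈ I with (α i + d).toNat ∈ t, |(s i : ℝ)| :=
            sum_fiberwise_eq_sum_filter _ _ _ _
        _ ≤ _ := sum_le_sum_of_subset_of_nonneg (filter_subset _ _) fun _ _ _ => abs_nonneg _
  have hF0 : F ≠ 0 := by
    obtain ⟨p, q, hp, hq, h0⟩ := hne
    intro h1
    have := hev p q hp hq
    rw [h1, Polynomial.map_zero, eval_zero] at this
    exact mul_ne_zero (mul_ne_zero (pow_ne_zero _ hp) (pow_ne_zero _ hq)) h0 this.symm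
  have hFd : F.natDegree ≤ 2 * d := by
    refine natDegree_sum_le_of_forall_le _ _ fun i hi => (natDegree_monomial_le _).trans ?_
    have := abs_le.1 (h i hi).1
    omega
  obtain ⟨G, e1, hnd⟩ := exists_eq_pow_rootMultiplicity_mul_and_not_dvd F hF0 0
  generalize F.rootMultiplicity 0 = κ at e1
  rw [map_zero, sub_zero] at e1 hnd
  rw [X_dvd_iff] at hnd
  refine ⟨G, _, (e1 ▸ hN).shift, hnd, le_trans ?_ hFd, fun p q hp hq => ?_⟩
  · have hG : G ≠ 0 := fun h => hnd (by simp [h])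
    rw [e1, natDegree_X_pow_mul _ hG]
    omega
  · have := hev p q hp hq
    rw [e1, Polynomial.map_mul, Polynomial.map_pow, map_X, eval_mul, eval_pow, eval_X] at this
    constructor
    · intro h0
      rw [h0, mul_zero] at this
      exact (mul_eq_zero.1 this.symm).resolve_left
        (mul_ne_zero (pow_ne_zero _ hp) (pow_ne_zero _ hq))
    · intro h0
      rw [h0, mul_zero] at this
      exact (mul_eq_zero.1 this).resolve_left (pow_ne_zero _ hp)

/-- an isolated common zero is not too close to a torsion translate of a subgroup -/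
theorem syl {ι κ : Type} (I : Finset ι) (J : Finset κ) (s e α β : ι → ℤ) (s' e' α' β' : κ → ℤ)
    {ζ : ℂ} {g d m W : ℕ} {H l ρ : ℝ} (hg : 0 < g) (hζ : ζ ^ g = 1)
    (hI : ∀ i ∈ I, |α i| ≤ d ∧ |β i - l * α i| ≤ ρ)
    (hJ : ∀ i ∈ J, |α' i| ≤ d ∧ |β' i - l * α' i| ≤ ρ)
    (HI : ∑ i ∈ I, |(s i : ℝ)| ≤ H) (HJ : ∑ i ∈ J, |(s' i : ℝ)| ≤ H) (hH : 1 ≤ H) (hρ : 0 ≤ ρ)
    (hW : 8 * d * ρ ≤ W) (nI : ∃ p q : ℂ, p ≠ 0 ∧ q ≠ 0 ∧ L3 I s e α β ζ p q ≠ 0)
    (nJ : ∃ p q : ℂ, p ≠ 0 ∧ q ≠ 0 ∧ L3 J s' e' α' β' ζ p q ≠ 0)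
    (fin : {z : ℂ × ℂ | z.1 ≠ 0 ∧ z.2 ≠ 0 ∧ L3 I s e α β ζ z.1 z.2 = 0 ∧
      L3 J s' e' α' β' ζ z.1 z.2 = 0}.Finite) (a : ℤ) {p q : ℂ} (hp : p ≠ 0) (hq : q ≠ 0)
    (z₁ : L3 I s e α β ζ p q = 0) (z₂ : L3 J s' e' α' β' ζ p q = 0) (hne : q ^ m ≠ ζ ^ a) :
    1 ≤ ‖q ^ m - ζ ^ a‖ * (2 ^ W * H ^ (4 * d * m)) ^ g := by
  obtain ⟨O, S, _, _, _, φ, σ₀, Y, L, hc, hY, hY'⟩ := exists_LS hg hζ
  obtain ⟨G₁, c₁, n₁, a₁, d₁, v₁⟩ := exists_nice σ₀ hY hY' I s e α β hI HI nI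
  obtain ⟨G₂, c₂, n₂, a₂, d₂, v₂⟩ := exists_nice σ₀ hY hY' J s' e' α' β' hJ HJ nJ
  rw [← hY] at hne ⊢
  rw [pow_mul H]
  refine core L hc σ₀ n₁ n₂ a₁ (fun h => a₂ (by simp [h])) (by omega) hρ
    (by push_cast; linarith) hH (fin.subset fun z hz => ?_) (fun σ => (hY' σ a).le) hq
    ((v₁ p q hp hq).2 z₁) ((v₂ p q hp hq).2 z₂) hne
  exact ⟨hz.1, hz.2.1, (v₁ _ _ hz.1 hz.2.1).1 hz.2.2.1, (v₂ _ _ hz.1 hz.2.1).1 hz.2.2.2⟩

/-- Liouville's inequality for sums of roots of unity -/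
theorem cyc {ι : Type} (I : Finset ι) (s e : ι → ℤ) {ζ : ℂ} {g : ℕ} {H : ℝ} (hg : 0 < g)
    (hζ : ζ ^ g = 1) (HI : ∑ i ∈ I, |(s i : ℝ)| ≤ H) (hH : 1 ≤ H)
    (h : ∑ i ∈ I, (s i : ℂ) * ζ ^ e i ≠ 0) : 1 ≤ ‖∑ i ∈ I, (s i : ℂ) * ζ ^ e i‖ * H ^ g := by
  obtain ⟨O, S, _, _, _, φ, σ₀, Y, L, hc, hY, hY'⟩ := exists_LS hg hζ
  have e0 : φ σ₀ (∑ i ∈ I, s i * Y (e i)) = ∑ i ∈ I, (s i : ℂ) * ζ ^ e i := by simp [hY]
  refine L.liou hc σ₀ (x := ∑ i ∈ I, s i * Y (e i)) (fun h0 => h (by rw [← e0, h0, map_zero])) hH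
    (norm_nonneg _) (fun σ => le_trans ?_ HI) ?_
  · rw [map_sum]
    refine norm_sum_le_of_le _ fun i _ => le_of_eq ?_
    rw [map_mul, norm_mul, hY', map_intCast, Complex.norm_intCast, mul_one]
  · rw [e0]
    exact le_mul_of_one_le_right (norm_nonneg _) hH

end Pool.Agent.MP_c1891a_nt.H83
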