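import Pool.Agent.MP_c1891a_nt.H96.Spec
import Pool.Agent.MP_c1891a_nt.H62.Piece
import Pool.Agent.MP_46692b_an.H66.Puiseux

/-! Counting the points near the curve, with singular points allowed. -/

namespace Pool.Agent.MP_c1891a_nt.H43

open Finset Polynomial Filter Topology

/-- few points have the property for a small threshold -/
def CFew (ε : ℝ) (Q : ℕ → ℝ → ℤ × ℤ → Prop) : Prop :=
  ∃ (C : ℝ) (A N₀ : ℕ), ∀ N : ℕ, N₀ ≤ N → ∀ S : Finset (ℤ × ℤ),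
    (∀ z ∈ S, Q N ((N : ℝ) ^ A)⁻¹ z) → (S.card : ℝ) ≤ C * (N : ℝ) ^ ε

theorem CFew.imp {ε : ℝ} {Q Q' : ℕ → ℝ → ℤ × ℤ → Prop} (h : CFew ε Q)
    (h' : ∀ A : ℕ, ∃ A' N₀ : ℕ, ∀ N : ℕ, N₀ ≤ N → ∀ z, Q' N ((N : ℝ) ^ A')⁻¹ z →
      Q N ((N : ℝ) ^ A)⁻¹ z) : CFew ε Q' := by
  obtain ⟨C, A, N₀, h⟩ := h
  obtain ⟨A', N₁, h'⟩ := h' A
  exact ⟨C, A', N₀ + N₁, fun N hN S hS => h N (by omega) S fun z hz => h' N (by omega) z (hS z hz)⟩

theorem CFew.union {ε : ℝ} {ι : Type} (T : Finset ι) {Q : ι → ℕ → ℝ → ℤ × ℤ → Prop}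
    (h : ∀ i, CFew ε (Q i)) (hm : ∀ i N d d' z, d ≤ d' → Q i N d z → Q i N d' z) :
    CFew ε fun N d z => ∃ i ∈ T, Q i N d z := by
  classical
  choose C A N₀ h using h
  refine ⟨∑ i ∈ T, C i, T.sup A, max 1 (T.sup N₀), fun N hN S hS => ?_⟩
  have hN1 : 1 ≤ N := le_trans (le_max_left _ _) hN
  have hcov : S ⊆ T.biUnion fun i => S.filter fun z => Q i N ((N : ℝ) ^ A i)⁻¹ z := by
    intro z hz
    obtain ⟨i, hi, hq⟩ := hS z hz
    exact mem_biUnion.2 ⟨i, hi, mem_filter.2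
      ⟨hz, hm i N _ _ z (piece_anti N _ _ hN1 (le_sup (f := A) hi)) hq⟩⟩
  have h2 : (S.card : ℝ) ≤
      ∑ i ∈ T, (((S.filter fun z => Q i N ((N : ℝ) ^ A i)⁻¹ z).card : ℕ) : ℝ) := by
    exact_mod_cast (card_le_card hcov).trans card_biUnion_le
  rw [sum_mul]
  exact h2.trans (sum_le_sum fun i hi => h i N
    (le_trans (le_sup (f := N₀) hi) (le_trans (le_max_right _ _) hN)) _ fun z hz =>
      (mem_filter.1 hz).2)

theorem CFew.or {ε : ℝ} {Q Q' : ℕ → ℝ → ℤ × ℤ → Prop} (h : CFew ε Q) (h' : CFew ε Q')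
    (hm : ∀ N d d' z, d ≤ d' → Q N d z → Q N d' z)
    (hm' : ∀ N d d' z, d ≤ d' → Q' N d z → Q' N d' z) :
    CFew ε fun N d z => Q N d z ∨ Q' N d z := by
  refine (CFew.union univ (Q := fun b : Bool => cond b Q Q') (fun b => by cases b <;> assumption)
    fun b => by cases b <;> assumption).imp fun A => ⟨A, 0, fun N _ z hz => ?_⟩
  rcases hz with hz | hz
  exacts [⟨true, mem_univ _, hz⟩, ⟨false, mem_univ _, hz⟩]

theorem cg_E_add (s t : ℝ) : E (s + t) = E s * E t := by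
  rw [E, E, E, ← Complex.exp_add]; congr 1; push_cast; ring

theorem cg_E_int (n : ℤ) : E n = 1 := by
  rw [E, ← Complex.exp_int_mul_two_pi_mul_I n]; congr 1; push_cast; ring

theorem cg_E_sub (s t : ℝ) : ‖E s - E t‖ = ‖E (s - t) - 1‖ := by
  have : E s - E t = E t * (E (s - t) - 1) := by
    rw [mul_sub, ← cg_E_add, mul_one]; congr 2; ring
  rw [this, norm_mul, piece_E_norm, one_mul]

theorem cg_round (x : ℝ) : |x - round x| ≤ ‖E x - 1‖ := by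
  have h1 : E x = Complex.exp (Complex.I * (2 * Real.pi * (x - round x) : ℝ)) := by
    have := cg_E_add (x - round x) (round x)
    rw [cg_E_int, mul_one, sub_add_cancel] at this
    rw [this, E]; congr 1; push_cast; ring
  have h2 := abs_sub_round x
  have hp := Real.pi_pos
  have h3 := Real.mul_abs_le_abs_sin (x := Real.pi * (x - round x)) (by
    rw [abs_mul, abs_of_pos hp]; nlinarith)
  rw [abs_mul, abs_of_pos hp, ← mul_assoc, div_mul_cancel₀ _ hp.ne'] at h3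
  rw [h1, Complex.norm_exp_I_mul_ofReal_sub_one, Real.norm_eq_abs, abs_mul,
    show 2 * Real.pi * (x - round x) / 2 = Real.pi * (x - round x) by ring, abs_two]
  linarith [abs_nonneg (x - round x)]

theorem cg_F1 (P : LP) (y : ℂ) {t : ℂ} (ht : t ≠ 0) :
    (F1 P 1 y 1 0).eval t = t ^ A1 P 1 0 * ev P t y := by
  simpa using F1_eval P 1 y 1 0 ht

theorem cg_root (hN : SNear) {P : LP} (hP : NoCoset P) (φ₀ : ℝ) : ∃ δ : ℝ, 0 < δ ∧ ∀ A : ℕ,
    ∃ A' N₀ : ℕ, ∀ N : ℕ, N₀ ≤ N → ∀ θ φ : ℝ, |φ - φ₀| ≤ δ →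
      ‖ev P (E θ) (E φ)‖ ≤ ((N : ℝ) ^ A')⁻¹ →
      ∃ α : ℂ, α ≠ 0 ∧ ev P α (E φ) = 0 ∧ ‖α - E θ‖ < ((N : ℝ) ^ A)⁻¹ := by
  have h0 := hP.F1_ne_zero one_ne_zero (piece_E_ne φ₀) (v₁ := 1) (v₂ := 0) (Or.inl one_ne_zero)
  obtain ⟨i, hi⟩ : ∃ i, (F1 P 1 (E φ₀) 1 0).coeff i ≠ 0 := ⟨_, leadingCoeff_ne_zero.2 h0⟩
  have hE : Continuous E := continuous_iff_continuousAt.2 fun t => (piece_E_an t).continuousAt
  have hc : Continuous fun φ => ‖(F1 P 1 (E φ) 1 0).coeff i‖ := by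
    simp only [F1_coeff]
    refine (continuous_finsetSum _ fun μ _ => ?_).norm
    split_ifs
    · exact continuous_const.mul (hE.zpow₀ _ fun z => Or.inl (piece_E_ne _))
    · exact continuous_const
  have hpos := norm_pos_iff.2 hi
  have hev : ∀ᶠ φ in 𝓝 φ₀, ‖(F1 P 1 (E φ₀) 1 0).coeff i‖ / 2 < ‖(F1 P 1 (E φ) 1 0).coeff i‖ :=
    hc.continuousAt.eventually (lt_mem_nhds (half_lt_self hpos))
  generalize ‖(F1 P 1 (E φ₀) 1 0).coeff i‖ = c at hpos hev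
  obtain ⟨δ, hδ, hb⟩ := Metric.nhds_basis_closedBall.eventually_iff.1 hev
  refine ⟨δ, hδ, fun A => ?_⟩
  set a := 2 * A1 P 1 0 + 1 with ha
  set k := P.coeff.support.card + 1 with hk
  obtain ⟨N₀, hN₀⟩ := exists_nat_gt ((20 * k * a : ℝ) ^ k / (c / 2))
  refine ⟨A * k + 1, N₀ + 1, fun N hN' θ φ hφ hs => ?_⟩
  have hN1 : (1 : ℝ) ≤ N := by exact_mod_cast (by omega : 1 ≤ N)
  have hd1 : ((N : ℝ) ^ A)⁻¹ ≤ 1 := inv_le_one_of_one_le₀ (one_le_pow₀ hN1)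
  by_contra hcon
  have h1 := hN (F1 P 1 (E φ) 1 0) k a (E θ) ((N : ℝ) ^ A)⁻¹
    ((F1_natDegree _ _ _ _ _).trans (by omega)) ((F1_support_card _ _ _ _ _).trans (by omega))
    (by omega) (by omega) (piece_E_norm θ) (by positivity) hd1 (fun α hα => by
      by_contra h
      have hα0 : α ≠ 0 := fun e => by
        rw [e, zero_sub, norm_neg, piece_E_norm] at h
        exact h hd1
      refine hcon ⟨α, hα0, ?_, not_le.1 h⟩
      rw [IsRoot.def, cg_F1 P _ hα0] at hα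
      exact (mul_eq_zero.1 hα).resolve_left (pow_ne_zero _ hα0)) i
  rw [cg_F1 P _ (piece_E_ne θ), norm_mul, norm_pow, piece_E_norm, one_pow, one_mul] at h1
  have h2 : c / 2 < ‖(F1 P 1 (E φ) 1 0).coeff i‖ := hb (by rwa [Metric.mem_closedBall, Real.dist_eq])
  have hka : (0 : ℝ) < 10 * k * a := by positivity
  have h3 : c / 2 * (((N : ℝ) ^ A)⁻¹ / (10 * k * a)) ^ k ≤ 2 ^ k * ((N : ℝ) ^ (A * k + 1))⁻¹ :=
    (mul_le_mul_of_nonneg_right h2.le (by positivity)).trans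
      (h1.trans (mul_le_mul_of_nonneg_left hs (by positivity)))
  have h4 : (N₀ : ℝ) ≤ N := by exact_mod_cast (by omega : N₀ ≤ N)
  have h5 := hN₀.trans_le h4
  rw [div_lt_iff₀ (by positivity), show (20 * k * a : ℝ) = 2 * (10 * k * a) by ring, mul_pow] at h5
  rw [div_pow, inv_pow, ← pow_mul, pow_succ (N : ℝ) (A * k)] at h3
  have hu := pow_pos hka k
  generalize (10 * k * a : ℝ) ^ k = u at h3 h5 hu
  have hx : (0 : ℝ) < (N : ℝ) ^ (A * k) := by positivity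
  generalize (N : ℝ) ^ (A * k) = x at h3 hx
  have h6 := mul_le_mul_of_nonneg_right h3 (show 0 ≤ x * N * u by positivity)
  rw [show c / 2 * (x⁻¹ / u) * (x * N * u) = N * (c / 2) by field_simp,
    show 2 ^ k * (x * N)⁻¹ * (x * N * u) = 2 ^ k * u by field_simp] at h6
  linarith

/-- a root near the point -/
def QR (P : LP) (N : ℕ) (d : ℝ) (z : ℤ × ℤ) : Prop :=
  0 ≤ z.1 ∧ z.1 < N ∧ ∃ α : ℂ, α ≠ 0 ∧ ev P α (E (z.2 / N)) = 0 ∧ ‖α - E (z.1 / N)‖ < d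

theorem QR.mono {P : LP} {N : ℕ} {d d' : ℝ} {z : ℤ × ℤ} (h : d ≤ d') : QR P N d z → QR P N d' z :=
  fun ⟨a, b, α, c, e, f⟩ => ⟨a, b, α, c, e, f.trans_le h⟩

theorem cg_fiber {P : LP} (hP : NoCoset P) {ε : ℝ} (hε : 0 < ε) (φ₀ : ℝ) :
    CFew ε fun N d z => |(z.2 / N : ℝ) - φ₀| < (2 * N : ℝ)⁻¹ ∧ QR P N d z := by
  classical
  refine ⟨(2 * A1 P 1 0 : ℕ), 2, 2, fun N hN S hS => ?_⟩
  have hN2 : (2 : ℝ) ≤ N := by exact_mod_cast hN
  have hN0 : (0 : ℝ) < N := by linarith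
  refine le_trans ?_ (le_mul_of_one_le_right (Nat.cast_nonneg _)
    (Real.one_le_rpow (by linarith) hε.le))
  rcases S.eq_empty_or_nonempty with rfl | ⟨z₀, h₀⟩
  · simp
  have e2 : ∀ z ∈ S, z.2 = z₀.2 := fun z hz => by
    have h1 := abs_lt.1 (hS z hz).1
    have h2 := abs_lt.1 (hS z₀ h₀).1
    have h3 : |(z.2 / N : ℝ) - z₀.2 / N| < (N : ℝ)⁻¹ := by
      have : (2 * N : ℝ)⁻¹ + (2 * N : ℝ)⁻¹ = (N : ℝ)⁻¹ := by field_simp; norm_num
      rw [abs_lt]; constructor <;> linarith [h1.1, h1.2, h2.1, h2.2]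
    rw [← sub_div, abs_div, abs_of_pos hN0, div_lt_iff₀ hN0, inv_mul_cancel₀ hN0.ne'] at h3
    have h4 : |z.2 - z₀.2| < 1 := by exact_mod_cast h3
    have := Int.abs_lt_one_iff.1 h4
    omega
  have h0 := hP.F1_ne_zero one_ne_zero (piece_E_ne (z₀.2 / N)) (v₁ := 1) (v₂ := 0)
    (Or.inl one_ne_zero)
  choose! α hα using fun z hz => (hS z hz).2.2.2
  have : S.card ≤ (F1 P 1 (E (z₀.2 / N)) 1 0).roots.toFinset.card := by
    refine card_le_card_of_injOn α (fun z hz => ?_) fun z hz z' hz' e => ?_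
    · rw [mem_coe, Multiset.mem_toFinset, mem_roots h0, IsRoot.def, cg_F1 P _ (hα z hz).1,
        ← e2 z hz, (hα z hz).2.1, mul_zero]
    · refine Prod.ext ?_ ((e2 z hz).trans (e2 z' hz').symm)
      have h1 := (hα z hz).2.2
      have h2 := (hα z' hz').2.2
      have h3 := cg_round ((z.1 / N : ℝ) - z'.1 / N)
      rw [← cg_E_sub] at h3
      have h4 := norm_sub_le_norm_sub_add_norm_sub (E (z.1 / N)) (α z) (E (z'.1 / N))
      rw [norm_sub_rev _ (α z)] at h4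
      rw [← e] at h2
      generalize round ((z.1 / N : ℝ) - z'.1 / N) = r at h3
      have h5 : |(z.1 / N : ℝ) - z'.1 / N - r| < (N : ℝ)⁻¹ := by
        have : 2 * ((N : ℝ) ^ 2)⁻¹ ≤ (N : ℝ)⁻¹ := by
          rw [← div_eq_mul_inv, div_le_iff₀ (by positivity), sq, ← mul_assoc,
            inv_mul_cancel₀ hN0.ne']
          linarith
        linarith
      rw [show (z.1 / N : ℝ) - z'.1 / N - r = (z.1 - z'.1 - r * N) / N by field_simp, abs_div,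
        abs_of_pos hN0, div_lt_iff₀ hN0, inv_mul_cancel₀ hN0.ne'] at h5
      have h6 : |z.1 - z'.1 - r * N| < 1 := by exact_mod_cast h5
      have h7 := Int.abs_lt_one_iff.1 h6
      have a1 := (hS z hz).2
      have a2 := (hS z' hz').2
      have h8 := Int.eq_zero_of_abs_lt_dvd (m := N) (x := z.1 - z'.1) ⟨r, by linarith⟩
        (by rw [abs_lt]; constructor <;> linarith [a1.1, a1.2.1, a2.1, a2.2.1])
      omega
  exact_mod_cast this.trans ((Multiset.toFinset_card_le _).trans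
    ((card_roots' _).trans (F1_natDegree _ _ _ _ _)))

theorem cg_an_ev (P : LP) {γ ψ : ℝ → ℝ} {v : ℝ} (h : AnalyticAt ℝ γ v) (h' : AnalyticAt ℝ ψ v) :
    AnalyticAt ℝ (fun u => ev P (E (γ u)) (E (ψ u))) v := by
  unfold ev
  refine Finset.analyticAt_fun_sum _ fun μ _ => ?_
  have h1 : AnalyticAt ℝ (fun u => E (γ u)) v := AnalyticAt.comp (g := E) (piece_E_an _) h
  have h2 : AnalyticAt ℝ (fun u => E (ψ u)) v := AnalyticAt.comp (g := E) (piece_E_an _) h'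
  exact (analyticAt_const.mul (h1.zpow (piece_E_ne _))).mul (h2.zpow (piece_E_ne _))

theorem cg_an_W (W : ℝ[X][X]) {γ ψ : ℝ → ℝ} {v : ℝ} (h : AnalyticAt ℝ γ v)
    (h' : AnalyticAt ℝ ψ v) : AnalyticAt ℝ (fun u => W.evalEval (ψ u) (γ u)) v := by
  induction W using Polynomial.induction_on' with
  | add p q hp hq => simp only [evalEval_add]; exact hp.add hq
  | monomial n a =>
    simp only [← C_mul_X_pow_eq_monomial, evalEval_mul, evalEval_C, evalEval_pow, evalEval_X]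
    exact (h'.aeval_polynomial a).mul (h.pow n)

theorem cg_good (h1 : SBPP) (h2 : SAL) {P : LP} (hP : NoCoset P) {ε : ℝ} (hε : 0 < ε) (φ₀ : ℝ)
    {e : ℝ} (he : e * e = 1) {n : ℕ} (hn : 0 < n) {γ : ℝ → ℝ} (hγ : AnalyticAt ℝ γ 0)
    (hz : ∀ᶠ σ in 𝓝 0, ev P (E (γ σ)) (E (φ₀ + e * σ ^ n)) = 0) :
    ∃ δ : ℝ, 0 < δ ∧ CFew ε fun N d z => 0 ≤ z.1 ∧ z.1 < N ∧ ∃ σ ∈ Set.Icc 0 δ,
      (z.2 / N : ℝ) = φ₀ + e * σ ^ n ∧ ‖E (γ σ) - E (z.1 / N)‖ < d := by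
  classical
  obtain ⟨δ, hδ, hb⟩ := Metric.nhds_basis_closedBall.eventually_iff.1
    (hγ.eventually_analyticAt.and hz.eventually_nhds)
  rw [Real.closedBall_eq_Icc] at hb
  have hψ : ∀ v, AnalyticAt ℝ (fun σ : ℝ => φ₀ + e * σ ^ n) v := fun v => by fun_prop
  have hsub : Set.Icc 0 (δ / 2) ⊆ Set.Icc (0 - δ) (0 + δ) :=
    Set.Icc_subset_Icc (by linarith) (by linarith)
  obtain ⟨C, A, N₀, hC⟩ := h1 γ (fun σ => φ₀ + e * σ ^ n) 0 (δ / 2) (fun v hv => (hb (hsub hv)).1)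
    (fun v _ => hψ v) (fun t₁ ht₁ W hW => by
      have m2 : δ / 2 ∈ Set.Icc 0 (δ / 2) := ⟨by linarith, le_rfl⟩
      have hW' := piece_id _ 0 δ hδ (fun v hv => cg_an_W W (hb hv).1 (hψ v)) t₁ (δ / 2)
        ⟨by linarith [ht₁.1], by linarith [ht₁.2]⟩ ⟨by linarith, by linarith⟩ hW
      let τ : ℝ → ℝ := fun v => Real.exp (Real.log (e * (v - φ₀)) / n)
      have hp : e * (φ₀ + e * (δ / 2) ^ n - φ₀) = (δ / 2) ^ n := by
        linear_combination (δ / 2) ^ n * he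
      have hp' : 0 < e * (φ₀ + e * (δ / 2) ^ n - φ₀) := by rw [hp]; positivity
      have hn' : (n : ℝ) ≠ 0 := by positivity
      have hτ : AnalyticAt ℝ τ (φ₀ + e * (δ / 2) ^ n) :=
        ((AnalyticAt.log (f := fun v => e * (v - φ₀)) (by fun_prop) hp').div analyticAt_const
          hn').rexp'
      have hτ0 : τ (φ₀ + e * (δ / 2) ^ n) = δ / 2 := by
        simp only [τ]
        rw [hp, Real.log_pow, mul_div_cancel_left₀ _ hn', Real.exp_log (by linarith)]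
      have ht : Tendsto τ (𝓝 (φ₀ + e * (δ / 2) ^ n)) (𝓝 (δ / 2)) := by
        have := hτ.continuousAt.tendsto
        rwa [hτ0] at this
      have hinv : ∀ᶠ v in 𝓝 (φ₀ + e * (δ / 2) ^ n), φ₀ + e * τ v ^ n = v := by
        have hc : ContinuousAt (fun v => e * (v - φ₀)) (φ₀ + e * (δ / 2) ^ n) := by fun_prop
        filter_upwards [hc.eventually (lt_mem_nhds hp')] with v hv
        simp only [τ]
        rw [← Real.exp_nat_mul, mul_div_cancel₀ _ hn', Real.exp_log hv]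
        linear_combination (v - φ₀) * he
      refine h2 P hP (fun v => γ (τ v)) _ (AnalyticAt.comp_of_eq (hb (hsub m2)).1 hτ hτ0) ?_ W ?_
      · filter_upwards [ht.eventually (hb (hsub m2)).2, hinv] with v a b
        rwa [b] at a
      · filter_upwards [ht.eventually hW', hinv] with v a b
        rwa [b] at a) ε hε
  refine ⟨δ / 2, by linarith, C, A, N₀ + 1, fun N hN S hS => ?_⟩
  have hN0 : (0 : ℝ) < N := by exact_mod_cast (by omega : 0 < N)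
  choose! σ hσ using fun z hz => (hS z hz).2.2
  rw [← card_image_of_injOn (f := fun z : ℤ × ℤ =>
    (z.1 + round (γ (σ z) - z.1 / N) * N, z.2))]
  · refine hC N (by omega) _ fun w hw => ?_
    obtain ⟨z, hz, rfl⟩ := mem_image.1 hw
    refine ⟨σ z, (hσ z hz).1, ?_, by rw [(hσ z hz).2.1, sub_self, abs_zero]; positivity⟩
    have h3 := cg_round (γ (σ z) - z.1 / N)
    rw [← cg_E_sub] at h3
    refine le_trans (le_of_eq ?_) (h3.trans (hσ z hz).2.2.le)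
    rw [abs_sub_comm]
    congr 1
    push_cast
    field_simp
    ring
  · intro z hz z' hz' h
    obtain ⟨e1, e2⟩ := Prod.ext_iff.1 h
    refine Prod.ext ?_ e2
    have a1 := hS z hz
    have a2 := hS z' hz'
    dsimp only at e1
    have h8 := Int.eq_zero_of_abs_lt_dvd (m := N) (x := z.1 - z'.1)
      ⟨round (γ (σ z') - z'.1 / N) - round (γ (σ z) - z.1 / N), by linarith⟩
      (by rw [abs_lt]; constructor <;> linarith [a1.1, a1.2.1, a2.1, a2.2.1])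
    omega

theorem cg_log {g : ℝ → ℂ} (hg : AnalyticAt ℝ g 0) (h0 : g 0 ≠ 0) :
    ∃ L : ℝ → ℂ, AnalyticAt ℝ L 0 ∧ ∀ᶠ σ in 𝓝 0, Complex.exp (L σ) = g σ := by
  refine ⟨fun σ => Complex.log (g σ / g 0) + Complex.log (g 0), ?_, ?_⟩
  · refine AnalyticAt.add ?_ analyticAt_const
    refine AnalyticAt.comp_of_eq (g := Complex.log) (analyticAt_clog Complex.one_mem_slitPlane
      ).restrictScalars (hg.div analyticAt_const h0) (div_self h0)
  · filter_upwards [hg.continuousAt.eventually_ne h0] with σ h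
    rw [Complex.exp_add, Complex.exp_log h0, Complex.exp_log (div_ne_zero h h0),
      div_mul_cancel₀ _ h0]

theorem cg_eq {f g : ℝ → ℝ} (hf : ContinuousAt f 0) (hg : ContinuousAt g 0)
    (h : ∀ᶠ σ in 𝓝[≠] 0, f σ = g σ) : f 0 = g 0 :=
  tendsto_nhds_unique_of_eventuallyEq (hf.tendsto.mono_left nhdsWithin_le_nhds)
    (hg.tendsto.mono_left nhdsWithin_le_nhds) h

theorem cg_dich {B : ℝ → ℂ} (hB : AnalyticAt ℝ B 0) (M : ℕ) :
    (∃ (c : ℝ) (o : ℕ), 0 < c ∧ ∀ᶠ σ : ℝ in 𝓝[>] 0, c * σ ^ o ≤ |‖B σ / σ ^ M‖ - 1|) ∨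
    ∃ γ : ℝ → ℝ, AnalyticAt ℝ γ 0 ∧ ∀ᶠ σ : ℝ in 𝓝[>] 0, B σ / σ ^ M = E (γ σ) := by
  have hre : AnalyticAt ℝ (fun σ => (B σ).re) 0 :=
    AnalyticAt.comp (g := Complex.reCLM) (Complex.reCLM.analyticAt _) hB
  have him : AnalyticAt ℝ (fun σ => (B σ).im) 0 :=
    AnalyticAt.comp (g := Complex.imCLM) (Complex.imCLM.analyticAt _) hB
  have hρ : AnalyticAt ℝ (fun σ : ℝ => ‖B σ‖ ^ 2 - (σ ^ M) ^ 2) 0 := by
    simp only [Complex.sq_norm, Complex.normSq_apply]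
    exact ((hre.mul hre).add (him.mul him)).sub (by fun_prop)
  by_cases h : ∀ᶠ σ in 𝓝 (0 : ℝ), ‖B σ‖ ^ 2 - (σ ^ M) ^ 2 = 0
  · right
    have h1 : ∀ᶠ σ in 𝓝 (0 : ℝ), ‖B σ‖ = |σ| ^ M := by
      filter_upwards [h] with σ h
      rw [← abs_pow, ← sq_eq_sq₀ (norm_nonneg _) (abs_nonneg _), sq_abs]
      linarith
    obtain ⟨o, g, hg, g0, hq⟩ := hB.exists_eventuallyEq_pow_smul_nonzero_iff.2 (fun h0 => by
      obtain ⟨σ, ⟨a, b⟩, c⟩ := (((h0.and h1).filter_mono nhdsWithin_le_nhds).and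
        (self_mem_nhdsWithin (s := {0}ᶜ))).exists
      rw [a, norm_zero] at b
      exact pow_ne_zero M (abs_ne_zero.2 c) b.symm)
    have h2 : ∀ᶠ σ in 𝓝[≠] (0 : ℝ), |σ| ^ o * ‖g σ‖ = |σ| ^ M ∧ |σ| ≠ 0 := by
      filter_upwards [nhdsWithin_le_nhds h1, nhdsWithin_le_nhds hq, self_mem_nhdsWithin]
        with σ a b c
      refine ⟨?_, abs_ne_zero.2 c⟩
      rw [← a, b, norm_smul, sub_zero, norm_pow, Real.norm_eq_abs]
    have hc := hg.continuousAt.norm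
    obtain rfl : o = M := by
      rcases lt_trichotomy o M with h3 | h3 | h3
      · obtain ⟨k, rfl⟩ := Nat.exists_eq_add_of_lt h3
        have := cg_eq hc (g := fun σ => |σ| ^ (k + 1)) (by fun_prop) (h2.mono fun σ a =>
          mul_left_cancel₀ (pow_ne_zero o a.2) (by rw [a.1]; ring))
        simp [g0] at this
      · exact h3
      · obtain ⟨k, rfl⟩ := Nat.exists_eq_add_of_lt h3
        have := cg_eq (f := fun σ => |σ| ^ (k + 1) * ‖g σ‖) (g := fun _ => 1)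
          (ContinuousAt.mul (by fun_prop) hc) continuousAt_const (h2.mono fun σ a =>
            mul_left_cancel₀ (pow_ne_zero M a.2) (by linear_combination a.1))
        simp at this
    obtain ⟨L, hL, hL'⟩ := cg_log hg g0
    refine ⟨fun σ => (L σ).im / (2 * Real.pi), (AnalyticAt.comp (g := Complex.imCLM)
      (Complex.imCLM.analyticAt _) hL).div analyticAt_const (by positivity), ?_⟩
    filter_upwards [nhdsGT_le_nhdsNE 0 h2, nhdsWithin_le_nhds hq, nhdsWithin_le_nhds hL']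
      with σ a b c
    have s0 : (σ : ℂ) ≠ 0 := by simpa using a.2
    have h4 : ‖g σ‖ = 1 := mul_left_cancel₀ (pow_ne_zero o a.2) (by rw [a.1, mul_one])
    rw [← c, Complex.norm_exp, Real.exp_eq_one_iff] at h4
    rw [b, sub_zero, Complex.real_smul, Complex.ofReal_pow, mul_div_cancel_left₀ _ (pow_ne_zero _ s0),
      ← c, E]
    congr 1
    have : (Real.pi : ℂ) ≠ 0 := by simp
    rw [← Complex.re_add_im (L σ), h4]
    simp
    field_simp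
  · left
    obtain ⟨o, g, hg, g0, hq⟩ := hρ.exists_eventuallyEq_pow_smul_nonzero_iff.2 h
    have hp := abs_pos.2 g0
    refine ⟨|g 0| / 2 / (‖B 0‖ + 2), o, by positivity, ?_⟩
    filter_upwards [nhdsWithin_le_nhds hq, self_mem_nhdsWithin,
      nhdsWithin_le_nhds (hg.continuousAt.abs.eventually (lt_mem_nhds (half_lt_self hp))),
      nhdsWithin_le_nhds (hB.continuousAt.norm.eventually (gt_mem_nhds (lt_add_one _))),
      nhdsWithin_le_nhds (gt_mem_nhds (zero_lt_one' ℝ))] with σ a b c d f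
    have b' : 0 < σ := b
    have s1 : σ ^ M ≤ 1 := pow_le_one₀ b'.le (le_of_lt f)
    have s0 : 0 < σ ^ M := pow_pos b' M
    rw [norm_div, norm_pow, Complex.norm_real, Real.norm_eq_abs, abs_of_pos b',
      div_sub_one s0.ne', abs_div, abs_of_pos s0, div_mul_eq_mul_div, div_le_iff₀ (by positivity)]
    have a' : |‖B σ‖ - σ ^ M| * (‖B σ‖ + σ ^ M) = σ ^ o * |g σ| := by
      rw [← abs_of_pos (show 0 < ‖B σ‖ + σ ^ M by positivity), ← abs_mul,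
        show (‖B σ‖ - σ ^ M) * (‖B σ‖ + σ ^ M) = ‖B σ‖ ^ 2 - (σ ^ M) ^ 2 by ring, a, sub_zero,
        smul_eq_mul, abs_mul, abs_of_pos (pow_pos b' o)]
    have c' : |g 0| / 2 < |g σ| := c
    have d' : ‖B σ‖ < ‖B 0‖ + 1 := d
    calc |g 0| / 2 * σ ^ o ≤ |‖B σ‖ - σ ^ M| * (‖B σ‖ + σ ^ M) := by
          rw [a', mul_comm]; gcongr
      _ ≤ _ := mul_le_mul (le_div_self (abs_nonneg _) s0 s1) (by linarith) (by positivity)
          (by positivity)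

theorem cg_branch (h1 : SBPP) (h2 : SAL) {P : LP} (hP : NoCoset P) {ε : ℝ} (hε : 0 < ε) (φ₀ : ℝ)
    {e : ℝ} (he : e * e = 1) {n : ℕ} (hn : 0 < n) {B : ℝ → ℂ} (hB : AnalyticAt ℝ B 0) (M : ℕ) :
    ∃ δ : ℝ, 0 < δ ∧ CFew ε fun N d z => 0 ≤ z.1 ∧ z.1 < N ∧
      ∃ σ ∈ Set.Icc (2 * N : ℝ)⁻¹ δ, 0 < σ ∧ (z.2 / N : ℝ) = φ₀ + e * σ ^ n ∧
        ev P (B σ / σ ^ M) (E (z.2 / N)) = 0 ∧ ‖B σ / σ ^ M - E (z.1 / N)‖ < d := by
  have ball : ∀ {p : ℝ → Prop}, (∀ᶠ σ in 𝓝[>] 0, p σ) →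
      ∃ δ : ℝ, 0 < δ ∧ ∀ σ, 0 < σ → σ ≤ δ → p σ := fun h => by
    obtain ⟨δ, hδ, h⟩ := (nhdsGT_basis_Ioc (0 : ℝ)).eventually_iff.1 h
    exact ⟨δ, hδ, fun σ a b => h ⟨a, b⟩⟩
  rcases cg_dich hB M with ⟨c, o, hc, h⟩ | ⟨γ, hγ, h⟩
  · obtain ⟨δ, hδ, h⟩ := ball h
    obtain ⟨N₀, hN₀⟩ := exists_nat_gt (2 ^ o / c)
    refine ⟨δ, hδ, 0, o + 1, N₀ + 1, fun N hN S hS => ?_⟩
    rw [eq_empty_of_forall_notMem (s := S) fun z hz => ?_]
    · simp
    obtain ⟨-, -, σ, ⟨a, b⟩, s0, -, -, f⟩ := hS z hz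
    have hN0 : (0 : ℝ) < N := by exact_mod_cast (by omega : 0 < N)
    have h3 := abs_norm_sub_norm_le (B σ / σ ^ M) (E (z.1 / N))
    rw [piece_E_norm] at h3
    replace h3 := (h σ s0 b).trans h3
    have h4 : c * ((2 * N : ℝ)⁻¹) ^ o < ((N : ℝ) ^ (o + 1))⁻¹ :=
      lt_of_le_of_lt (by gcongr) (h3.trans_lt f)
    have h5 : (N₀ : ℝ) ≤ N := by exact_mod_cast (by omega : N₀ ≤ N)
    have h6 := hN₀.trans_le h5
    rw [div_lt_iff₀ hc] at h6
    have h7 := mul_lt_mul_of_pos_right h4 (show (0 : ℝ) < 2 ^ o * N ^ (o + 1) by positivity)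
    rw [show c * ((2 * N : ℝ)⁻¹) ^ o * (2 ^ o * N ^ (o + 1)) = N * c by
        rw [inv_pow, mul_pow]; field_simp; ring,
      show ((N : ℝ) ^ (o + 1))⁻¹ * (2 ^ o * N ^ (o + 1)) = 2 ^ o by field_simp] at h7
    linarith
  · obtain ⟨δ, hδ, h⟩ := ball h
    rcases (cg_an_ev P hγ (ψ := fun σ => φ₀ + e * σ ^ n)
      (by fun_prop)).eventually_eq_zero_or_eventually_ne_zero with hz | hz
    · obtain ⟨δ', hδ', hF⟩ := cg_good h1 h2 hP hε φ₀ he hn hγ hz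
      refine ⟨min δ δ', lt_min hδ hδ', hF.imp fun A => ⟨A, 0, ?_⟩⟩
      rintro N - z ⟨a, b, σ, ⟨-, c⟩, s0, d, -, f⟩
      exact ⟨a, b, σ, ⟨s0.le, c.trans (min_le_right _ _)⟩, d,
        h σ s0 (c.trans (min_le_left _ _)) ▸ f⟩
    · obtain ⟨δ', hδ', hz⟩ := ball (hz.filter_mono (nhdsGT_le_nhdsNE 0))
      refine ⟨min δ δ', lt_min hδ hδ', 0, 0, 0, fun N _ S hS => ?_⟩
      rw [eq_empty_of_forall_notMem (s := S) fun z hz' => ?_]
      · simp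
      obtain ⟨-, -, σ, ⟨-, c⟩, s0, d, f, -⟩ := hS z hz'
      rw [h σ s0 (c.trans (min_le_left _ _)), d] at f
      exact hz σ s0 (c.trans (min_le_right _ _)) f

theorem cg_side (h1 : SBPP) (h2 : SAL) {P : LP} (hP : NoCoset P) {ε : ℝ} (hε : 0 < ε) (φ₀ : ℝ)
    {e : ℝ} (he : e * e = 1) : ∃ δ : ℝ, 0 < δ ∧ CFew ε fun N d z =>
      e * ((z.2 / N : ℝ) - φ₀) ∈ Set.Icc (2 * N : ℝ)⁻¹ δ ∧ QR P N d z := by
  have hG : ∀ p w : ℂ, p ≠ 0 → w ≠ 0 → (F2 P 1 1 0 1 1 0).evalEval p w =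
      p ^ A1 P 0 1 * w ^ A1 P 1 0 * ev P w p := fun p w hp hw => by
    simpa using F2_evalEval P 1 1 0 1 1 0 hp hw
  have hG0 : F2 P (1 : ℂ) 1 0 1 1 0 ≠ 0 := fun h => by
    obtain ⟨t, t0, ht⟩ := hP 1 1 one_ne_zero one_ne_zero 1 0 (Or.inl one_ne_zero)
    have := hG 1 t one_ne_zero t0
    rw [h, evalEval_zero] at this
    simp [t0] at this ht
    exact ht this
  obtain ⟨n, M, k, r, b, hn, hr, hb, -, hroot⟩ := MP_46692b_an.H66.puiseux _ hG0 (E φ₀)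
  have e0 : (e : ℂ) ≠ 0 := fun h => by
    rw [Complex.ofReal_eq_zero.1 h] at he
    simp at he
  have fa : AnalyticAt ℝ (fun t => E (φ₀ + t)) 0 :=
    AnalyticAt.comp (g := E) (piece_E_an _) (by fun_prop)
  have hD : AnalyticAt ℝ (dslope (fun t => E (φ₀ + t)) 0) 0 := by
    obtain ⟨p, hp⟩ := fa
    exact ⟨_, hp.has_fpower_series_dslope_fslope⟩
  have hD0 : dslope (fun t => E (φ₀ + t)) 0 0 ≠ 0 := by
    have : HasDerivAt (fun t : ℝ => E (φ₀ + t)) (E φ₀ * (2 * Real.pi * Complex.I)) 0 := by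
      have := (((Complex.ofRealCLM.hasDerivAt (x := 0)).const_add (φ₀ : ℂ)).const_mul
        (2 * Real.pi * Complex.I)).cexp
      simpa [E] using this
    rw [dslope_same, this.deriv]
    exact mul_ne_zero (piece_E_ne _) Complex.two_pi_I_ne_zero
  generalize hDe : dslope (fun t => E (φ₀ + t)) 0 = D at hD hD0
  have hDm : ∀ t : ℝ, E φ₀ + t * D t = E (φ₀ + t) := fun t => by
    have := sub_smul_dslope (fun t => E (φ₀ + t)) 0 t
    rw [hDe, sub_zero, Complex.real_smul, add_zero] at this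
    rw [this]; ring
  have z0 : e * (0 : ℝ) ^ n = 0 := by simp [hn.ne']
  obtain ⟨L, hL, hL'⟩ := cg_log (g := fun σ => e * D (e * σ ^ n))
    (analyticAt_const.mul (AnalyticAt.comp_of_eq hD (by fun_prop) z0))
    (mul_ne_zero e0 (by rwa [z0]))
  have n0 : (n : ℂ) ≠ 0 := Nat.cast_ne_zero.2 hn.ne'
  let u : ℝ → ℂ := fun σ => Complex.exp (L σ / n)
  have hu : AnalyticAt ℝ u 0 := AnalyticAt.comp (g := Complex.exp)
    analyticAt_cexp.restrictScalars (hL.div analyticAt_const n0)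
  have hs : AnalyticAt ℝ (fun σ : ℝ => σ * u σ) 0 := (Complex.ofRealCLM.analyticAt 0).mul hu
  have hB : ∀ i, AnalyticAt ℝ (fun σ : ℝ => b i (σ * u σ) / u σ ^ M) 0 := fun i =>
    (AnalyticAt.comp_of_eq ((hb i).analyticAt (Metric.ball_mem_nhds 0 hr)).restrictScalars hs
      (by simp)).div (hu.pow M) (pow_ne_zero _ (Complex.exp_ne_zero _))
  choose δ hδ hF using fun i => cg_branch h1 h2 hP hε φ₀ he hn (hB i) M
  have hev : ∀ᶠ σ : ℝ in 𝓝 0, ((σ * u σ ∈ Metric.ball (0 : ℂ) r ∧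
      Complex.exp (L σ) = e * D (e * σ ^ n)) ∧ σ ≤ 1) ∧ ∀ i, σ ≤ δ i :=
    (((hs.continuousAt.eventually (Metric.isOpen_ball.mem_nhds (by simpa using hr))).and hL').and
      (ge_mem_nhds one_pos)).and (eventually_all.2 fun i => ge_mem_nhds (hδ i))
  obtain ⟨δ₁, hδ₁, hev⟩ := Metric.nhds_basis_closedBall.eventually_iff.1 hev
  refine ⟨δ₁ ^ n, by positivity, (CFew.union univ hF ?_).imp fun A => ⟨A, 1, ?_⟩⟩
  · rintro i N d d' z h ⟨a, b, σ, c, s0, f, g, j⟩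
    exact ⟨a, b, σ, c, s0, f, g, j.trans_le h⟩
  · rintro N hN z ⟨⟨t1, t2⟩, a, a', α, α0, hα, hd⟩
    have hN0 : (0 : ℝ) < N := by exact_mod_cast hN
    have t0 : 0 < e * ((z.2 / N : ℝ) - φ₀) := lt_of_lt_of_le (by positivity) t1
    obtain ⟨σ, s0, hσ⟩ : ∃ σ : ℝ, 0 < σ ∧ σ ^ n = e * ((z.2 / N : ℝ) - φ₀) :=
      ⟨_, Real.rpow_pos_of_pos t0 _, Real.rpow_inv_natCast_pow t0.le hn.ne'⟩
    rw [← hσ] at t1 t2
    have s1 : σ ≤ δ₁ := (pow_le_pow_iff_left₀ s0.le hδ₁.le hn.ne').1 t2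
    obtain ⟨⟨⟨b1, b2⟩, b3⟩, b4⟩ := hev (x := σ) (by simpa [abs_of_pos s0] using s1)
    have hφ : (z.2 / N : ℝ) = φ₀ + e * σ ^ n := by
      rw [hσ]; linear_combination (φ₀ - (z.2 / N : ℝ)) * he
    have sc : (σ : ℂ) ≠ 0 := by simpa using s0.ne'
    have hE : E φ₀ + (σ * u σ) ^ n = E (z.2 / N) := by
      rw [hφ, ← hDm, mul_pow, ← Complex.exp_nat_mul, mul_div_cancel₀ _ n0, b2]
      push_cast
      ring
    obtain ⟨i, hi⟩ := hroot _ b1 (mul_ne_zero sc (Complex.exp_ne_zero _)) α (by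
      rw [hE, hG _ _ (piece_E_ne _) α0, hα, mul_zero])
    have hi' : b i (σ * u σ) / u σ ^ M / σ ^ M = α := by
      rw [hi, mul_pow, div_div, mul_comm (u σ ^ M)]
    exact ⟨i, mem_univ _, a, a', σ, ⟨t1.trans (pow_le_of_le_one s0.le b3 hn.ne'), b4 i⟩, s0, hφ,
      hi' ▸ hα, hi' ▸ hd⟩

theorem cg_loc (h1 : SBPP) (h2 : SAL) (h3 : SNear) {P : LP} (hP : NoCoset P) {ε : ℝ} (hε : 0 < ε)
    (φ₀ : ℝ) : ∃ δ : ℝ, 0 < δ ∧ CFew ε fun N d z => |(z.2 / N : ℝ) - φ₀| ≤ δ ∧ 0 ≤ z.1 ∧ z.1 < N ∧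
      ‖ev P (E (z.1 / N)) (E (z.2 / N))‖ ≤ d := by
  obtain ⟨δ₀, hδ₀, hr⟩ := cg_root h3 hP φ₀
  obtain ⟨δ₁, hδ₁, f₁⟩ := cg_side h1 h2 hP hε φ₀ (e := 1) (by norm_num)
  obtain ⟨δ₂, hδ₂, f₂⟩ := cg_side h1 h2 hP hε φ₀ (e := -1) (by norm_num)
  refine ⟨min δ₀ (min δ₁ δ₂), by positivity, ((cg_fiber hP hε φ₀).or (f₁.or f₂
    (fun N d d' z h a => ⟨a.1, a.2.mono h⟩) fun N d d' z h a => ⟨a.1, a.2.mono h⟩)
    (fun N d d' z h a => ⟨a.1, a.2.mono h⟩) fun N d d' z h a =>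
      a.imp (fun a => ⟨a.1, a.2.mono h⟩) fun a => ⟨a.1, a.2.mono h⟩).imp fun A => ?_⟩
  obtain ⟨A', N₀, hr⟩ := hr A
  refine ⟨A', N₀, fun N hN z ⟨a, b, c, d⟩ => ?_⟩
  simp only [le_min_iff] at a
  have q : QR P N ((N : ℝ) ^ A)⁻¹ z := ⟨b, c, hr N hN _ _ a.1 d⟩
  by_cases h : |(z.2 / N : ℝ) - φ₀| < (2 * N : ℝ)⁻¹
  · exact Or.inl ⟨h, q⟩
  · rcases abs_cases ((z.2 / N : ℝ) - φ₀) with g | g
    · exact Or.inr (Or.inl ⟨⟨by linarith [g.1], by linarith [g.1, a.2.1]⟩, q⟩)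
    · exact Or.inr (Or.inr ⟨⟨by linarith [g.1], by linarith [g.1, a.2.2]⟩, q⟩)

theorem sCountG (h1 : SBPP) (h2 : SAL) (h3 : SNear) : SCountG := by
  intro P hP ε hε
  choose δ hδ hF using cg_loc h1 h2 h3 hP hε
  obtain ⟨T, -, hT⟩ := (isCompact_Icc (a := (0 : ℝ)) (b := 1)).elim_nhds_subcover
    (fun p => Metric.closedBall p (δ p)) fun p _ => Metric.closedBall_mem_nhds p (hδ p)
  refine (CFew.union T hF fun i N d d' z h a => ⟨a.1, a.2.1, a.2.2.1, a.2.2.2.trans h⟩).imp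
    (Q' := fun N d z => 0 ≤ z.1 ∧ z.1 < N ∧ 0 ≤ z.2 ∧ z.2 < N ∧
      ‖ev P (E (z.1 / N)) (E (z.2 / N))‖ ≤ d) fun A => ⟨A, 1, fun N hN z ⟨a, b, c, d, f⟩ => ?_⟩
  have hN0 : (0 : ℝ) < N := by exact_mod_cast hN
  have b3 : (0 : ℝ) ≤ z.2 := by exact_mod_cast c
  have b4 : (z.2 : ℝ) ≤ N := by exact_mod_cast d.le
  obtain ⟨p, hp, hz⟩ := Set.mem_iUnion₂.1 (hT (show (z.2 / N : ℝ) ∈ Set.Icc 0 1 from
    ⟨by positivity, (div_le_one hN0).2 b4⟩))
  exact ⟨p, hp, hz, a, b, f⟩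

end Pool.Agent.MP_c1891a_nt.H43
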