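import Pool.Agent.MP_c1891a_nt.H83.SpikeG

/-! Unit values of a product of two polynomials whose curves are not isogenous. -/

namespace Pool.Agent.MP_c1891a_nt.H43

open Finset Polynomial

/-- no monomial correspondence joins the two curves. -/
def NonIso (P Q : LP) : Prop :=
  ∀ (m : ℕ) (a b c d : ℤ), 0 < m → a * d ≠ b * c →
    {z : (ℂ × ℂ) × ℂ × ℂ | z.1.1 ≠ 0 ∧ z.1.2 ≠ 0 ∧ z.2.1 ≠ 0 ∧ z.2.2 ≠ 0 ∧
      ev P z.1.1 z.1.2 = 0 ∧ ev Q z.2.1 z.2.2 = 0 ∧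
      z.2.1 ^ m = z.1.1 ^ a * z.1.2 ^ b ∧ z.2.2 ^ m = z.1.1 ^ c * z.1.2 ^ d}.Finite

/-- the bound for a product. -/
def SProdC : Prop :=
  ∀ P Q : LP, NoCoset P → NonMon P → NoCoset Q → NonMon Q → NonIso P Q →
    ∃ B : ℕ, ∀ x y : ℂ, Tor x → Tor y → H79.IsU (ev P x y * ev Q x y) → Rel B x y

/-- the unit points of a given order lie in boundedly many Galois orbits. -/
def SOrb : Prop :=
  ∀ P : LP, NoCoset P → NonMon P → ∃ C B : ℕ, ∀ N : ℕ, 0 < N →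
    ∃ S : Finset (ℂ × ℂ), S.card ≤ C ∧ ∀ x y : ℂ, x ^ N = 1 → y ^ N = 1 →
      (∀ k : ℕ, 0 < k → x ^ k = 1 → y ^ k = 1 → N ≤ k) → H79.IsU (ev P x y) → ¬ Rel B x y →
      ∃ j : ℕ, Nat.Coprime j N ∧ (x ^ j, y ^ j) ∈ S

theorem prod_rel_mono {B B' : ℕ} (h : B ≤ B') {x y : ℂ} : Rel B x y → Rel B' x y :=
  fun ⟨m, n, h0, h1, h2, h3⟩ =>
    ⟨m, n, h0, h1.trans (by exact_mod_cast h), h2.trans (by exact_mod_cast h), h3⟩

theorem prod_unit {u v : ℂ} (hu : IsIntegral ℤ u) (hv : IsIntegral ℤ v) (h : H79.IsU (u * v)) :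
    H79.IsU u := by
  refine ⟨left_ne_zero_of_mul h.1, hu, ?_⟩
  have h0 := left_ne_zero_of_mul h.1
  have h1 := right_ne_zero_of_mul h.1
  have : u⁻¹ = v * (u * v)⁻¹ := by field_simp
  rw [this]
  exact hv.mul h.2.2

theorem prod_det {B : ℕ} {η : Fin 4 → ℂ} {v w : Fin 4 → ℤ} (h : Sym B η v w)
    (hr : ∃ i j, v i * w j ≠ v j * w i) : v 0 * w 1 ≠ v 1 * w 0 := by
  obtain ⟨m, a, b, c, d, hm, -, -, -, -, -, e1, e2, e3, e4, -, -⟩ := h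
  obtain ⟨i, j, hij⟩ := hr
  intro h0
  have hm' : (m : ℤ) ≠ 0 := by omega
  have key : ∀ i : Fin 4, ∃ s t : ℤ, m * v i = s * v 0 + t * v 1 ∧ m * w i = s * w 0 + t * w 1 := by
    intro i
    fin_cases i
    · exact ⟨m, 0, by simp, by simp⟩
    · exact ⟨0, m, by simp, by simp⟩
    · exact ⟨a, b, e1, e2⟩
    · exact ⟨c, d, e3, e4⟩
  obtain ⟨s, t, f1, f2⟩ := key i
  obtain ⟨s', t', f3, f4⟩ := key j
  refine hij (mul_left_cancel₀ (mul_ne_zero hm' hm') ?_)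
  calc m * m * (v i * w j) = (m * v i) * (m * w j) := by ring
    _ = (m * v j) * (m * w i) := by
      rw [f1, f2, f3, f4]; linear_combination (s * t' - t * s') * h0
    _ = _ := by ring

theorem prod_fin {D : ℤ} (hD : D ≠ 0) (c : ℂ) : {p : ℂ | p ^ D = c}.Finite := by
  have h1 : ∀ (n : ℕ) (c : ℂ), 0 < n → {p : ℂ | p ^ n = c}.Finite := fun n c hn =>
    (finite_setOfPred_isRoot (X_pow_sub_C_ne_zero hn c)).subset fun p hp => by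
      simpa [sub_eq_zero] using hp
  obtain ⟨n, rfl | rfl⟩ := Int.eq_nat_or_neg D
  · simpa using h1 n c (by omega)
  · refine (h1 n c⁻¹ (by omega)).subset fun p hp => ?_
    simp only [Set.mem_ofPred_eq, zpow_neg, zpow_natCast] at hp ⊢
    rw [← hp, inv_inv]

theorem prod_pow {η η₀ η₁ p q : ℂ} (hp : p ≠ 0) (hq : q ≠ 0) {m : ℕ} {a b v w v₀ w₀ v₁ w₁ : ℤ}
    (e1 : m * v = a * v₀ + b * v₁) (e2 : m * w = a * w₀ + b * w₁) (e : η ^ m = η₀ ^ a * η₁ ^ b) :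
    (η * p ^ v * q ^ w) ^ m = (η₀ * p ^ v₀ * q ^ w₀) ^ a * (η₁ * p ^ v₁ * q ^ w₁) ^ b := by
  rw [mul_pow, mul_pow, e, ← zpow_natCast (p ^ v), ← zpow_natCast (q ^ w), ← zpow_mul, ← zpow_mul,
    mul_comm v, mul_comm w, e1, e2, zpow_add₀ hp, zpow_add₀ hq]
  simp only [mul_zpow, ← zpow_mul, mul_comm v₀, mul_comm v₁, mul_comm w₀, mul_comm w₁]
  ring

theorem prod_zs {P Q : LP} (h : NonIso P Q) {B : ℕ} {η : Fin 4 → ℂ} {v w : Fin 4 → ℤ}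
    (hη : ∀ i, η i ≠ 0) (hr : ∃ i j, v i * w j ≠ v j * w i) (h1 : Sym B η v w)
    (h2 : v 2 * w 3 ≠ v 3 * w 2) : (ZS P Q η v w).Finite := by
  have hd := prod_det h1 hr
  obtain ⟨m, a, b, c, d, hm, -, -, -, -, -, e1, e2, e3, e4, e5, e6⟩ := h1
  have hG : a * d ≠ b * c := by
    intro h0
    have hm' : (m : ℤ) ≠ 0 := by omega
    refine h2 (mul_left_cancel₀ (mul_ne_zero hm' hm') ?_)
    calc m * m * (v 2 * w 3) = (m * v 2) * (m * w 3) := by ring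
      _ = (m * v 3) * (m * w 2) := by
        rw [e1, e2, e3, e4]; linear_combination (v 0 * w 1 - v 1 * w 0) * h0
      _ = _ := by ring
  let f : ℂ × ℂ → (ℂ × ℂ) × ℂ × ℂ := fun z =>
    ((η 0 * z.1 ^ v 0 * z.2 ^ w 0, η 1 * z.1 ^ v 1 * z.2 ^ w 1),
      (η 2 * z.1 ^ v 2 * z.2 ^ w 2, η 3 * z.1 ^ v 3 * z.2 ^ w 3))
  refine Set.Finite.of_finite_fibers f ((h m a b c d hm hG).subset ?_) ?_
  · rintro _ ⟨z, ⟨hp, hq, z1, z2⟩, rfl⟩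
    have n : ∀ i, η i * z.1 ^ v i * z.2 ^ w i ≠ 0 := fun i =>
      mul_ne_zero (mul_ne_zero (hη i) (zpow_ne_zero _ hp)) (zpow_ne_zero _ hq)
    exact ⟨n 0, n 1, n 2, n 3, z1, z2, prod_pow hp hq e1 e2 e5, prod_pow hp hq e3 e4 e6⟩
  · rintro s -
    refine ((prod_fin (sub_ne_zero.2 hd) ((s.1.1 / η 0) ^ w 1 / (s.1.2 / η 1) ^ w 0)).prod
      (prod_fin (sub_ne_zero.2 hd) ((s.1.2 / η 1) ^ v 0 / (s.1.1 / η 0) ^ v 1))).subset ?_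
    rintro z ⟨⟨hp, hq, -⟩, rfl⟩
    have t : ∀ i, η i * z.1 ^ v i * z.2 ^ w i / η i = z.1 ^ v i * z.2 ^ w i := fun i => by
      have := hη i
      field_simp
    simp only [f, Set.mem_prod, Set.mem_ofPred_eq, t, mul_zpow, ← zpow_mul, zpow_sub₀ hp,
      zpow_sub₀ hq]
    constructor
    · rw [mul_comm (w 1) (w 0), mul_div_mul_right _ _ (zpow_ne_zero _ hq)]
    · rw [mul_comm (v 1) (v 0), mul_div_mul_left _ _ (zpow_ne_zero _ hp), mul_comm (w 1),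
        mul_comm (w 0)]

theorem sProdC (h1 : SSpikeG) (h2 : SAnom) (h3 : SFin) (h4 : SGen) : SProdC := by
  intro P Q cP mP cQ mQ hI
  obtain ⟨BP, NP, hP⟩ := h1 P cP mP
  obtain ⟨BQ, NQ, hQ⟩ := h1 Q cQ mQ
  obtain ⟨M₀, hA⟩ := h2 P Q
  obtain ⟨B₁, f₁⟩ := h3 P Q cP cQ
  obtain ⟨B₂, f₂⟩ := h3 Q P cQ cP
  refine ⟨BP + BQ + NP + NQ + M₀, fun x y tx ty hu => ?_⟩
  by_contra hR
  have uP := prod_unit (ev_int P tx ty) (ev_int Q tx ty) hu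
  have uQ := prod_unit (ev_int Q tx ty) (ev_int P tx ty) (mul_comm (ev P x y) _ ▸ hu)
  obtain ⟨n₁, p₁, x₁⟩ := tx
  obtain ⟨n₂, p₂, y₁⟩ := ty
  obtain ⟨N, ξ, e, hN, -, hξ, hG, he, -⟩ := h4 2 ![x, y] (n₁ * n₂) (Nat.mul_pos p₁ p₂) (by
    intro i
    fin_cases i
    · simp [pow_mul, x₁]
    · simp [mul_comm n₁, pow_mul, y₁])
  obtain rfl : x = ξ ^ e 0 := he 0
  obtain rfl : y = ξ ^ e 1 := he 1
  have hB : BP + BQ + NP + NQ + M₀ < N := by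
    by_contra h
    refine hR ⟨N, 0, Or.inl (by omega), by rw [Nat.abs_cast]; omega,
      by rw [abs_zero]; omega, ?_⟩
    rw [← zpow_mul, mul_comm (e 0), zpow_mul, zpow_natCast, hξ.pow_eq_one]
    simp
  obtain ⟨j, cj, nP, lP⟩ := hP N (by omega) ξ e hξ hG uP fun h => hR (prod_rel_mono (by omega) h)
  obtain ⟨k, -, nQ, lQ⟩ := hQ N (by omega) ξ e hξ hG uQ fun h => hR (prod_rel_mono (by omega) h)
  have hle : Real.exp (-(N : ℝ) ^ (49 / 50 : ℝ)) ≤ Real.exp (-(N : ℝ) ^ (979 / 1000 : ℝ)) :=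
    Real.exp_le_exp.2 (neg_le_neg (Real.rpow_le_rpow_of_exponent_le
      (by exact_mod_cast hN) (by norm_num)))
  have z : ∀ (a : ℤ) (n : ℕ), (ξ ^ a) ^ n = ξ ^ (a * n) := fun a n => by rw [zpow_mul, zpow_natCast]
  rw [z, z] at nP lP nQ lQ
  obtain ⟨η, v, w, p₀, q₀, tη, -, -, hr, hz, inf⟩ := hA N (by omega) ξ
    ![e 0 * j, e 1 * j, e 0 * k, e 1 * k] hξ (fun κ hκ => by
      have hc : IsCoprime (N : ℤ) j := (Nat.isCoprime_iff_coprime.2 cj).symm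
      refine hG κ fun i => hc.dvd_of_dvd_mul_right ?_
      fin_cases i
      · simpa [mul_assoc] using hκ 0
      · simpa [mul_assoc] using hκ 1) nP nQ (lP.trans hle) (lQ.trans hle)
  obtain ⟨s, -, -, s₁, s₂⟩ := inf.nonempty
  have a₁ : v 0 ≠ 0 ∨ w 0 ≠ 0 ∨ v 1 ≠ 0 ∨ w 1 ≠ 0 := by
    by_contra h
    simp only [not_or, not_not] at h
    have t0 := hz 0
    have t1 := hz 1
    simp only [h, zpow_zero, mul_one] at t0 t1 s₁
    exact nP (by rw [← t0, ← t1] at s₁; exact s₁)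
  have a₂ : v 2 ≠ 0 ∨ w 2 ≠ 0 ∨ v 3 ≠ 0 ∨ w 3 ≠ 0 := by
    by_contra h
    simp only [not_or, not_not] at h
    have t0 := hz 2
    have t1 := hz 3
    simp only [h, zpow_zero, mul_one] at t0 t1 s₂
    exact nQ (by rw [← t0, ← t1] at s₂; exact s₂)
  let π : Fin 4 → Fin 4 := ![2, 3, 0, 1]
  have hr' : ∃ i j, (v ∘ π) i * (w ∘ π) j ≠ (v ∘ π) j * (w ∘ π) i := by
    obtain ⟨i, j, h⟩ := hr
    have hπ : ∀ i, π (π i) = i := by decide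
    exact ⟨π i, π j, by simpa only [Function.comp, hπ] using h⟩
  have S₂ := f₂ (η ∘ π) (v ∘ π) (w ∘ π) (fun i => tη _) hr' a₂ a₁
    (inf.mono fun z hz => ⟨hz.1, hz.2.1, hz.2.2.2, hz.2.2.1⟩)
  exact inf (prod_zs hI (fun i => (tη i).ne_zero) hr (f₁ η v w tη hr a₁ a₂ inf)
    (prod_det S₂ hr'))

theorem sOrb (h1 : SSpikeG) (h2 : SPair) (h4 : SGen) : SOrb := by
  classical
  intro P cP mP
  obtain ⟨B₁, N₁, hP⟩ := h1 P cP mP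
  obtain ⟨B, hB⟩ := h2 P P cP cP
  obtain ⟨N₀, hB⟩ := hB 1
  let J : Finset ℤ := Icc (-B) B
  let T : Finset (ℕ × (ℤ × ℤ) × ℤ × ℤ) := Icc 1 B ×ˢ (J ×ˢ J) ×ˢ J ×ˢ J
  refine ⟨T.card * (B * B), B₁ + N₁ + N₀, fun N hN => ?_⟩
  let Sp : ℂ × ℂ → Prop := fun s => s.1 ^ N = 1 ∧ s.2 ^ N = 1 ∧
    (∀ k : ℕ, 0 < k → s.1 ^ k = 1 → s.2 ^ k = 1 → N ≤ k) ∧ ev P s.1 s.2 ≠ 0 ∧
    ‖ev P s.1 s.2‖ ≤ Real.exp (-(N : ℝ) ^ (49 / 50 : ℝ))
  have key : ∀ x y : ℂ, x ^ N = 1 → y ^ N = 1 →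
      (∀ k : ℕ, 0 < k → x ^ k = 1 → y ^ k = 1 → N ≤ k) → H79.IsU (ev P x y) →
      ¬ Rel (B₁ + N₁ + N₀) x y → N₀ ≤ N ∧ ∃ j : ℕ, Nat.Coprime j N ∧ Sp (x ^ j, y ^ j) := by
    intro x y hx hy ho hu hR
    have hb : B₁ + N₁ + N₀ < N := by
      by_contra h
      exact hR ⟨N, 0, Or.inl (by omega), by rw [Nat.abs_cast]; omega, by rw [abs_zero]; omega,
        by simp [hx]⟩
    obtain ⟨N', ξ, e, hN', dv, hξ, hG, he, hd⟩ := h4 2 ![x, y] N hN (by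
      intro i
      fin_cases i
      exacts [hx, hy])
    obtain rfl : x = ξ ^ e 0 := he 0
    obtain rfl : y = ξ ^ e 1 := he 1
    have z : ∀ a : ℤ, (ξ ^ a) ^ N' = 1 := fun a => by
      rw [← zpow_natCast, ← zpow_mul, mul_comm, zpow_mul, zpow_natCast, hξ.pow_eq_one, one_zpow]
    obtain rfl : N' = N := le_antisymm (Nat.le_of_dvd hN dv) (ho _ hN' (z _) (z _))
    obtain ⟨j, cj, nP, lP⟩ := hP N' (by omega) ξ e hξ hG hu fun h => hR (prod_rel_mono (by omega) h)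
    refine ⟨by omega, j, cj, by rw [← pow_mul, mul_comm, pow_mul, hx, one_pow],
      by rw [← pow_mul, mul_comm, pow_mul, hy, one_pow], fun k hk k₁ k₂ => ?_, nP, lP⟩
    refine Nat.le_of_dvd hk (cj.symm.dvd_of_dvd_mul_left (hd (j * k) fun i => ?_))
    fin_cases i
    exacts [(pow_mul _ _ _).trans k₁, (pow_mul _ _ _).trans k₂]
  by_cases hs : ∃ s, Sp s
  · obtain ⟨s, s₁, s₂, s₃, s₄, s₅⟩ := hs
    refine ⟨T.biUnion fun t => nthRootsFinset t.1 (s.1 ^ t.2.1.1 * s.2 ^ t.2.1.2) ×ˢ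
      nthRootsFinset t.1 (s.1 ^ t.2.2.1 * s.2 ^ t.2.2.2), card_biUnion_le_card_mul _ _ _ fun t ht => ?_,
      fun x y hx hy ho hu hR => ?_⟩
    · have h1 : ∀ c : ℂ, (nthRootsFinset t.1 c).card ≤ B := fun c =>
        ((Multiset.toFinset_card_le _).trans (card_nthRoots _ _)).trans
          (mem_Icc.1 (mem_product.1 ht).1).2
      rw [card_product]
      exact Nat.mul_le_mul (h1 _) (h1 _)
    · obtain ⟨hn, j, cj, t₁, t₂, -, t₄, t₅⟩ := key x y hx hy ho hu hR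
      obtain ⟨m, a, b, c, d, m0, mB, ha, hb, hc, hd, e₁, e₂⟩ :=
        hB N N s.1 s.2 _ _ hn hN (by omega) s₁ s₂ t₁ t₂ s₃ s₄ t₄ s₅ t₅
      refine ⟨j, cj, mem_biUnion.2 ⟨(m, (a, b), c, d), ?_, mem_product.2
        ⟨(mem_nthRootsFinset m0 _).2 e₁, (mem_nthRootsFinset m0 _).2 e₂⟩⟩⟩
      simp only [T, J, mem_product, mem_Icc, ← abs_le]
      exact ⟨⟨m0, mB⟩, ⟨ha, hb⟩, hc, hd⟩
  · refine ⟨∅, Nat.zero_le _, fun x y hx hy ho hu hR => ?_⟩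
    obtain ⟨-, j, -, h⟩ := key x y hx hy ho hu hR
    exact absurd ⟨_, h⟩ hs

end Pool.Agent.MP_c1891a_nt.H43
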