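import Mathlib

/-! Derivations of fields: extension, vanishing on algebraic elements, residue at infinity. -/

open Polynomial TensorProduct

set_option linter.unusedSectionVars false

namespace Pool.Agent.MP_c1891a_nt.H83

/-- extension of a derivation along a formally etale map -/
theorem der_ext_etale {C A K : Type*} [CommRing C] [CommRing A] [CommRing K] [Algebra C A]
    [Algebra C K] [Algebra A K] [IsScalarTower C A K] [Algebra.FormallyEtale A K]
    (d : Derivation C A K) :
    ∃ e : Derivation C K K, ∀ a : A, e (algebraMap A K a) = d a := by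
  let l : K ⊗[A] Ω[A⁄C] →ₗ[K] K := d.liftKaehlerDifferential.liftBaseChange K
  let m : Ω[K⁄C] →ₗ[K] K :=
    l ∘ₗ (KaehlerDifferential.tensorKaehlerEquivOfFormallyEtale C A K).symm.toLinearMap
  refine ⟨m.compDer (KaehlerDifferential.D C K), fun a => ?_⟩
  change m (KaehlerDifferential.D C K (algebraMap A K a)) = d a
  simp only [m, l, LinearMap.comp_apply, LinearEquiv.coe_coe,
    KaehlerDifferential.tensorKaehlerEquivOfFormallyEtale_symm_D_algebraMap]
  simp

/-- extension of a derivation to an algebraic field extension -/
theorem der_ext {C F K : Type*} [Field C] [Field F] [Field K] [CharZero F] [Algebra C F]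
    [Algebra C K] [Algebra F K] [IsScalarTower C F K] [Algebra.IsAlgebraic F K]
    (d : Derivation C F K) :
    ∃ e : Derivation C K K, ∀ a : F, e (algebraMap F K a) = d a := by
  have : Algebra.FormallyEtale F K := Algebra.FormallyEtale.of_isSeparable F K
  exact der_ext_etale d

/-- a derivation vanishing on the coefficients vanishes at the roots -/
theorem der_alg {C A K M : Type*} [CommRing C] [CommRing A] [Field K] [CharZero K] [Algebra C K]
    [Algebra A K] [AddCommGroup M] [Module K M] [Module C M] (d : Derivation C K M)
    (hA : ∀ a : A, d (algebraMap A K a) = 0) (hinj : Function.Injective (algebraMap A K))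
    {x : K} (hx : IsAlgebraic A x) : d x = 0 := by
  classical
  have key : ∀ p : A[X], d (aeval x p) = (aeval x (derivative p)) • d x := by
    intro p
    induction p using Polynomial.induction_on' with
    | add p q hp hq => simp [hp, hq, add_smul]
    | monomial n a =>
      simp only [aeval_monomial, derivative_monomial, Derivation.leibniz, hA, smul_zero, add_zero,
        Derivation.leibniz_pow, map_mul, map_natCast]
      rw [← Nat.cast_smul_eq_nsmul K, smul_smul, smul_smul]
  obtain ⟨p0, hp0, hp0x⟩ := hx
  have hex : ∃ n, ∃ p : A[X], p ≠ 0 ∧ aeval x p = 0 ∧ p.natDegree = n := ⟨_, p0, hp0, hp0x, rfl⟩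
  obtain ⟨p, hp, hpx, hpn⟩ := Nat.find_spec hex
  have hk := key p
  rw [hpx, map_zero] at hk
  by_cases h0 : aeval x (derivative p) = 0
  · exfalso
    have hdeg : p.natDegree ≠ 0 := by
      intro h
      rw [eq_C_of_natDegree_eq_zero h] at hpx hp
      simp only [aeval_C] at hpx
      apply hp
      rw [hinj (hpx.trans (map_zero _).symm), map_zero]
    have hd0 : derivative p ≠ 0 := by
      intro h
      have h1 := congrArg (fun q => q.coeff (p.natDegree - 1)) h
      simp only [coeff_derivative, coeff_zero] at h1
      have h2 : p.natDegree - 1 + 1 = p.natDegree := by omega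
      rw [h2] at h1
      have h3 := congrArg (algebraMap A K) h1
      simp only [map_mul, map_add, map_natCast, map_one, map_zero] at h3
      rcases mul_eq_zero.1 h3 with h4 | h4
      · have : p.coeff p.natDegree = 0 := hinj (h4.trans (map_zero _).symm)
        exact hp (leadingCoeff_eq_zero.1 this)
      · exact (Nat.cast_add_one_ne_zero _) h4
    have := Nat.find_min hex (m := (derivative p).natDegree)
      (by rw [← hpn]; exact natDegree_derivative_lt hdeg)
    exact this ⟨_, hd0, h0, rfl⟩
  · exact (smul_eq_zero.1 hk.symm).resolve_left h0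

section Res
variable {k : Type*} [Field k] [CharZero k]

open Classical in
/-- valuation at infinity -/
noncomputable abbrev axw (k : Type*) [Field k] := RatFunc.inftyValuation k

theorem axw_poly {p : k[X]} (hp : p ≠ 0) :
    axw k (algebraMap k[X] (RatFunc k) p) = WithZero.exp (p.natDegree : ℤ) := by
  classical
  exact RatFunc.inftyValuation.polynomial k hp

theorem axw_ne {f : RatFunc k} (hf : f ≠ 0) : axw k f = WithZero.exp f.intDegree := by
  classical
  exact RatFunc.inftyValuation_of_nonzero k hf

theorem axw_C_le (c : k) : axw k (algebraMap k (RatFunc k) c) ≤ 1 := by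
  classical
  by_cases hc : c = 0
  · simp [hc]
  · exact (RatFunc.inftyValuation.C k hc).le

theorem axw_C {c : k} (hc : c ≠ 0) : axw k (algebraMap k (RatFunc k) c) = 1 := by
  classical
  exact (RatFunc.inftyValuation.C k hc)

/-- logarithmic derivative of a polynomial at infinity -/
theorem axw_log {p : k[X]} (hp : p ≠ 0) :
    axw k (algebraMap k[X] (RatFunc k) (X * derivative p) / algebraMap k[X] (RatFunc k) p
      - (p.natDegree : RatFunc k)) < 1 := by
  have hp' : algebraMap k[X] (RatFunc k) p ≠ 0 := by simpa using hp
  have e : algebraMap k[X] (RatFunc k) (X * derivative p) / algebraMap k[X] (RatFunc k) p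
      - (p.natDegree : RatFunc k)
      = algebraMap k[X] (RatFunc k) (X * derivative p - (p.natDegree : k[X]) * p)
        / algebraMap k[X] (RatFunc k) p := by
    rw [map_sub, map_mul _ (p.natDegree : k[X]), map_natCast]
    field_simp
  rw [e, map_div₀]
  set q := X * derivative p - (p.natDegree : k[X]) * p with hq
  by_cases h0 : q = 0
  · simp [h0]
  have hlt : q.natDegree < p.natDegree := by
    by_contra hge
    push Not at hge
    apply h0
    apply leadingCoeff_eq_zero.1
    rw [leadingCoeff]
    generalize q.natDegree = m at hge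
    rw [hq, coeff_sub, ← C_eq_natCast, coeff_C_mul]
    rcases Nat.eq_zero_or_pos m with hm | hm
    · subst hm
      have : p.natDegree = 0 := by omega
      simp [this]
    · obtain ⟨m, rfl⟩ : ∃ m', m = m' + 1 := ⟨m - 1, by omega⟩
      rw [coeff_X_mul, coeff_derivative]
      rcases hge.eq_or_lt with h | h
      · rw [h]; push_cast; ring
      · rw [coeff_eq_zero_of_natDegree_lt h]; simp
  rw [axw_poly h0, axw_poly hp, ← WithZero.exp_sub, ← WithZero.exp_zero, WithZero.exp_lt_exp]
  omega

/-- `th f` stands for `X f'` -/
theorem axw_rat (th : RatFunc k → RatFunc k)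
    (hth : ∀ p q : k[X], p ≠ 0 → q ≠ 0 →
      th (algebraMap k[X] (RatFunc k) p / algebraMap k[X] (RatFunc k) q)
        / (algebraMap k[X] (RatFunc k) p / algebraMap k[X] (RatFunc k) q)
      = algebraMap k[X] (RatFunc k) (X * derivative p) / algebraMap k[X] (RatFunc k) p
        - algebraMap k[X] (RatFunc k) (X * derivative q) / algebraMap k[X] (RatFunc k) q)
    {f : RatFunc k} (hf : f ≠ 0) :
    axw k (th f / f - (f.intDegree : RatFunc k)) < 1 := by
  have h := hth f.num f.denom (RatFunc.num_ne_zero hf) f.denom_ne_zero
  rw [RatFunc.num_div_denom] at h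
  have h1 := axw_log (RatFunc.num_ne_zero hf)
  have h2 := axw_log f.denom_ne_zero
  have h3 := (axw k).map_sub_lt h1 h2
  convert h3 using 2
  rw [h, RatFunc.intDegree]
  push_cast
  ring

theorem axw_res {ι : Type*} [Fintype ι] (th : RatFunc k → RatFunc k) (h0 : th 0 = 0)
    (hth : ∀ f : RatFunc k, f ≠ 0 → axw k (th f / f - (f.intDegree : RatFunc k)) < 1)
    (c : ι → k) (N : ι → RatFunc k) (hN : ∀ i, N i ≠ 0) (T : RatFunc k)
    (h : ∑ i, algebraMap k (RatFunc k) (c i) * (th (N i) / N i) = th T) :
    ∑ i, c i * ((N i).intDegree : k) = 0 := by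
  set s := ∑ i, c i * ((N i).intDegree : k) with hs
  have hsm : axw k (th T - algebraMap k (RatFunc k) s) < 1 := by
    rw [← h, hs, map_sum, ← Finset.sum_sub_distrib]
    apply (axw k).map_sum_lt one_ne_zero
    intro i _
    rw [map_mul, map_intCast, ← mul_sub, map_mul]
    calc _ ≤ 1 * axw k (th (N i) / N i - ((N i).intDegree : RatFunc k)) :=
          mul_le_mul_left (axw_C_le _) _
      _ < 1 := by rw [one_mul]; exact hth _ (hN i)
  by_contra hs0
  have h1 : axw k (th T) = 1 := by
    have := (axw k).map_add_eq_of_lt_left (x := algebraMap k (RatFunc k) s)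
      (y := th T - algebraMap k (RatFunc k) s) (by rw [axw_C hs0]; exact hsm)
    rw [axw_C hs0] at this
    simpa using this
  by_cases hT : T = 0
  · rw [hT, h0] at h1; simp at h1
  have h2 := hth T hT
  have h3 : axw k (th T) = axw k T * axw k (th T / T) := by
    rw [← map_mul]; congr 1; field_simp
  by_cases he : T.intDegree = 0
  · rw [he] at h2
    simp only [Int.cast_zero, sub_zero] at h2
    rw [h1, axw_ne hT, he, WithZero.exp_zero, one_mul] at h3
    exact absurd h3.symm h2.ne
  · have hc : axw k ((T.intDegree : ℤ) : RatFunc k) = 1 := by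
      have := axw_C (k := k) (c := (T.intDegree : k)) (by exact_mod_cast he)
      rwa [map_intCast] at this
    have h4 := (axw k).map_add_eq_of_lt_left (x := ((T.intDegree : ℤ) : RatFunc k))
      (y := th T / T - (T.intDegree : RatFunc k)) (by rw [hc]; exact h2)
    rw [hc, add_sub_cancel] at h4
    rw [h1, h4, mul_one, axw_ne hT, ← WithZero.exp_zero] at h3
    exact he (WithZero.exp_injective h3).symm

end Res

end Pool.Agent.MP_c1891a_nt.H83
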