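import Pool.Agent.MP_c1891a_nt.H83.AxA

/-! The lemma of Rosenlicht on logarithmic differentials. -/

open Polynomial

namespace Pool.Agent.MP_c1891a_nt.H83

theorem der_log_mul {C K : Type*} [CommRing C] [Field K] [Algebra C K] (d : Derivation C K K)
    {a b : K} (ha : a ≠ 0) (hb : b ≠ 0) : d (a * b) / (a * b) = d a / a + d b / b := by
  rw [d.leibniz]; simp only [smul_eq_mul]; field_simp; ring

theorem der_log_inv {C K : Type*} [CommRing C] [Field K] [Algebra C K] (d : Derivation C K K)
    (a : K) : d a⁻¹ / a⁻¹ = -(d a / a) := by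
  by_cases ha : a = 0
  · simp [ha]
  rw [d.leibniz_inv]; simp only [smul_eq_mul]; field_simp

theorem der_log_div {C K : Type*} [CommRing C] [Field K] [Algebra C K] (d : Derivation C K K)
    {a b : K} (ha : a ≠ 0) (hb : b ≠ 0) : d (a / b) / (a / b) = d a / a - d b / b := by
  rw [div_eq_mul_inv a b, der_log_mul d ha (inv_ne_zero hb), der_log_inv]; ring

theorem der_log_prod {C K ι : Type*} [CommRing C] [Field K] [Algebra C K] (d : Derivation C K K)
    (s : Finset ι) {f : ι → K} (h : ∀ i ∈ s, f i ≠ 0) :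
    d (∏ i ∈ s, f i) / (∏ i ∈ s, f i) = ∑ i ∈ s, d (f i) / f i := by
  classical
  induction s using Finset.induction_on with
  | empty => simp
  | insert a s ha ih =>
    rw [Finset.prod_insert ha, Finset.sum_insert ha,
      der_log_mul d (h a (Finset.mem_insert_self _ _))
        (Finset.prod_ne_zero_iff.2 fun i hi => h i (Finset.mem_insert_of_mem hi)),
      ih fun i hi => h i (Finset.mem_insert_of_mem hi)]

theorem der_log_zpow {C K : Type*} [CommRing C] [Field K] [Algebra C K] (d : Derivation C K K)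
    {a : K} (ha : a ≠ 0) (n : ℤ) : d (a ^ n) / a ^ n = n * (d a / a) := by
  have hn : ∀ m : ℕ, d (a ^ m) / a ^ m = m * (d a / a) := by
    intro m
    have := der_log_prod d (Finset.range m) (f := fun _ => a) fun _ _ => ha
    simpa using this
  obtain ⟨m, rfl | rfl⟩ := n.eq_nat_or_neg
  · simpa using hn m
  · rw [zpow_neg, der_log_inv, zpow_natCast, hn]; push_cast; ring

/-- the derivative of rational functions -/
theorem der_rat (k : Type*) [Field k] : ∃ d : Derivation k (RatFunc k) (RatFunc k),
    ∀ p : k[X], d (algebraMap k[X] (RatFunc k) p) = algebraMap k[X] (RatFunc k) (derivative p) := by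
  have : Algebra.FormallyEtale k[X] (RatFunc k) :=
    Algebra.FormallyEtale.of_isLocalization (nonZeroDivisors k[X])
  obtain ⟨e, he⟩ := der_ext_etale (C := k) (A := k[X]) (K := RatFunc k)
    ((Algebra.linearMap k[X] (RatFunc k)).compDer (Polynomial.derivative' : Derivation k k[X] k[X]))
  exact ⟨e, fun p => by rw [he]; rfl⟩

theorem intDegree_prod_zpow {k ι : Type*} [Field k] (s : Finset ι) (N : ι → RatFunc k)
    (hN : ∀ i, N i ≠ 0) (a : ι → ℤ) :
    (∏ i ∈ s, N i ^ a i).intDegree = ∑ i ∈ s, a i * (N i).intDegree := by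
  classical
  have hp : ∀ (f : RatFunc k), f ≠ 0 → ∀ m : ℕ, (f ^ m).intDegree = m * f.intDegree := by
    intro f hf m
    induction m with
    | zero => simp
    | succ m ih => rw [pow_succ, RatFunc.intDegree_mul (pow_ne_zero _ hf) hf, ih]; push_cast; ring
  have hz : ∀ (f : RatFunc k), f ≠ 0 → ∀ m : ℤ, (f ^ m).intDegree = m * f.intDegree := by
    intro f hf n
    obtain ⟨m, rfl | rfl⟩ := n.eq_nat_or_neg
    · simpa using hp f hf m
    · rw [zpow_neg, RatFunc.intDegree_inv, zpow_natCast, hp f hf]; ring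
  induction s using Finset.induction_on with
  | empty => simp
  | insert i s hi ih =>
    rw [Finset.prod_insert hi, Finset.sum_insert hi, RatFunc.intDegree_mul (zpow_ne_zero _ (hN i))
      (Finset.prod_ne_zero_iff.2 fun j _ => zpow_ne_zero _ (hN j)), ih, hz _ (hN i)]

theorem der_comm {k F W : Type*} [Field k] [Field F] [CharZero F] [Field W] [Algebra k F]
    [Algebra k W] [Algebra F W] [Algebra.IsAlgebraic F W] (d₀ : Derivation k F F)
    (d : Derivation k W W) (hd : ∀ f, d (algebraMap F W f) = algebraMap F W (d₀ f))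
    (σ : W →ₐ[F] W) (y : W) : σ (d y) = d (σ y) := by
  let d₁ : Derivation ℤ F F := Derivation.mk' d₀.toLinearMap.toAddMonoidHom.toIntLinearMap
    fun a b => d₀.leibniz a b
  let d₂ : Derivation ℤ W W := Derivation.mk' d.toLinearMap.toAddMonoidHom.toIntLinearMap
    fun a b => d.leibniz a b
  let : Differential F := ⟨d₁⟩
  let : Differential W := ⟨d₂⟩
  have : DifferentialAlgebra F W := ⟨fun f => hd f⟩
  exact Differential.algHom_deriv' σ σ.injective y

theorem ros_core {k W ι : Type*} [Field k] [CharZero k] [Field W] [IsAlgClosed W] [Fintype ι]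
    [Algebra k W] [Algebra (RatFunc k) W] [IsScalarTower k (RatFunc k) W]
    [Algebra.IsAlgebraic (RatFunc k) W] (d₀ : Derivation k (RatFunc k) (RatFunc k))
    (h₀ : ∀ p : k[X], d₀ (algebraMap k[X] (RatFunc k) p) = algebraMap k[X] (RatFunc k) (derivative p))
    (d : Derivation k W W)
    (hd : ∀ f, d (algebraMap (RatFunc k) W f) = algebraMap (RatFunc k) W (d₀ f))
    (x : ι → W) (hx : ∀ i, x i ≠ 0) (v : W) (c : ι → k)
    (h : ∑ i, algebraMap k W (c i) * (d (x i) / x i) = d v) (a : ι → ℤ)
    (ha : ∏ i, x i ^ a i = algebraMap (RatFunc k) W RatFunc.X) :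
    ∃ n : ι → ℤ, ∑ i, c i * (n i : k) = 0 ∧ ∑ i, a i * n i ≠ 0 := by
  classical
  have hcomm : ∀ (σ : W →ₐ[RatFunc k] W) (y : W), σ (d y) = d (σ y) :=
    der_comm d₀ d hd
  have : IsAlgClosure (RatFunc k) W := ⟨inferInstance, inferInstance⟩
  let E := IntermediateField.adjoin (RatFunc k) (insert v (Set.range x))
  have : FiniteDimensional (RatFunc k) E :=
    IntermediateField.finiteDimensional_adjoin fun y _ => Algebra.IsIntegral.isIntegral y
  let x' : ι → E := fun i => ⟨x i, IntermediateField.subset_adjoin _ _ (Or.inr ⟨i, rfl⟩)⟩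
  let v' : E := ⟨v, IntermediateField.subset_adjoin _ _ (Or.inl rfl)⟩
  have hx' : ∀ i, x' i ≠ 0 := fun i e => hx i (congrArg Subtype.val e)
  let N : ι → RatFunc k := fun i => Algebra.norm (RatFunc k) (x' i)
  have hN : ∀ i, N i ≠ 0 := fun i => Algebra.norm_ne_zero_iff.2 (hx' i)
  let T : RatFunc k := Algebra.trace (RatFunc k) E v'
  have hσ : ∀ σ : E →ₐ[RatFunc k] W,
      ∑ i, algebraMap k W (c i) * (d (σ (x' i)) / σ (x' i)) = d (σ v') := by
    intro σ
    have e := congrArg (σ.liftNormal W) h
    have e1 : ∀ y : E, σ.liftNormal W y = σ y := fun y => by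
      simpa using σ.liftNormal_commutes W y
    rw [map_sum, hcomm] at e
    rw [← e1 v', ← e]
    refine Finset.sum_congr rfl fun i _ => ?_
    rw [map_mul, map_div₀, hcomm, ← e1 (x' i), IsScalarTower.algebraMap_apply k (RatFunc k) W,
      AlgHom.commutes]
  have hrel : ∑ i, algebraMap k (RatFunc k) (c i) * (RatFunc.X * d₀ (N i) / N i)
      = RatFunc.X * d₀ T := by
    have e : ∑ i, algebraMap k (RatFunc k) (c i) * (d₀ (N i) / N i) = d₀ T := by
      apply (algebraMap (RatFunc k) W).injective
      rw [map_sum, ← hd, trace_eq_sum_embeddings W, map_sum,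
        ← Finset.sum_congr rfl fun σ _ => hσ σ, Finset.sum_comm]
      refine Finset.sum_congr rfl fun i _ => ?_
      rw [map_mul, map_div₀, ← hd, Algebra.norm_eq_prod_embeddings _ W,
        der_log_prod d _ fun σ _ => (map_ne_zero σ).2 (hx' i), Finset.mul_sum,
        ← IsScalarTower.algebraMap_apply]
    rw [← e, Finset.mul_sum]
    refine Finset.sum_congr rfl fun i _ => by ring
  have hres := axw_res (fun f => RatFunc.X * d₀ f) (by simp) (fun f hf => axw_rat
    (fun f => RatFunc.X * d₀ f) (fun p q hp hq => by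
      have hp' : algebraMap k[X] (RatFunc k) p ≠ 0 := by simpa using hp
      have hq' : algebraMap k[X] (RatFunc k) q ≠ 0 := by simpa using hq
      rw [mul_div_assoc, der_log_div d₀ hp' hq', h₀, h₀, map_mul, map_mul, RatFunc.algebraMap_X]
      ring) hf) c N hN T hrel
  refine ⟨fun i => (N i).intDegree, hres, ?_⟩
  rw [← intDegree_prod_zpow _ N hN a]
  have e : ∏ i, N i ^ a i = RatFunc.X ^ Module.finrank (RatFunc k) E := by
    rw [← Algebra.norm_algebraMap]
    have : algebraMap (RatFunc k) E RatFunc.X = ∏ i, x' i ^ a i := by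
      apply Subtype.val_injective
      have := map_prod E.val (fun i => x' i ^ a i) Finset.univ
      simp only [map_zpow₀] at this
      exact (ha.symm.trans this.symm)
    rw [this, map_prod]
    refine Finset.prod_congr rfl fun i _ => ?_
    exact (Algebra.norm_zpow _ _).symm
  have e2 := intDegree_prod_zpow (Finset.univ : Finset Unit) (fun _ => (RatFunc.X : RatFunc k))
    (fun _ => RatFunc.X_ne_zero) (fun _ => (Module.finrank (RatFunc k) E : ℤ))
  simp only [Finset.univ_unique, Finset.prod_singleton, Finset.sum_singleton, zpow_natCast,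
    RatFunc.intDegree_X, mul_one] at e2
  rw [e, e2]
  exact_mod_cast Module.finrank_pos.ne'

end Pool.Agent.MP_c1891a_nt.H83
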