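import Pool.Agent.MP_c1891a_nt.H83.AxB

/-! The lemma of Rosenlicht and the theorem of Ax. -/

open Polynomial

namespace Pool.Agent.MP_c1891a_nt.H83

theorem ros_field {C K : Type*} [Field C] [Field K] [Algebra C K] {t : K}
    (ht : Transcendental C t) : ∃ k : IntermediateField C K, Transcendental k t ∧
      ∀ y : K, IsAlgebraic (Algebra.adjoin k {t}) y := by
  have h1 : AlgebraicIndepOn C id ({t} : Set K) :=
    (algebraicIndependent_singleton_iff (⟨t, rfl⟩ : ({t} : Set K))).2 ht
  obtain ⟨s, hs, hb⟩ := exists_isTranscendenceBasis_superset h1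
  have hts : t ∈ s := hs rfl
  refine ⟨IntermediateField.adjoin C (s \ {t}), ?_, fun y => ?_⟩
  · rw [IntermediateField.transcendental_adjoin_iff]
    have := hb.1.transcendental_adjoin (s := {(⟨t, hts⟩ : s)}ᶜ) (i := ⟨t, hts⟩) (by simp)
    have e : Subtype.val '' ({(⟨t, hts⟩ : s)}ᶜ : Set s) = s \ {t} := by
      ext z
      simp only [Set.mem_image, Set.mem_compl_iff, Set.mem_singleton_iff, Set.mem_sdiff]
      constructor
      · rintro ⟨w, hw, rfl⟩
        exact ⟨w.2, fun e => hw (Subtype.ext e)⟩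
      · rintro ⟨a, b⟩
        exact ⟨⟨z, a⟩, fun e => b (congrArg Subtype.val e), rfl⟩
    rwa [e] at this
  · have h2 := hb.isAlgebraic.isAlgebraic y
    rw [Subtype.range_val] at h2
    set k := IntermediateField.adjoin C (s \ {t})
    have hle : Algebra.adjoin C s ≤ (Algebra.adjoin k {t}).restrictScalars C := by
      refine Algebra.adjoin_le fun z hz => ?_
      by_cases e : z = t
      · exact e ▸ Algebra.subset_adjoin rfl
      · exact (Algebra.adjoin k {t}).algebraMap_mem
          (⟨z, IntermediateField.subset_adjoin C _ ⟨hz, e⟩⟩ : k)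
    exact h2.tower_top_of_subalgebra_le hle

theorem ros_aux {C K ι : Type*} [Field C] [CharZero C] [Field K] [Algebra C K] [Fintype ι]
    (x : ι → K) (hx : ∀ i, x i ≠ 0) (v : K) (c : ι → C)
    (h : ∀ d : Derivation C K K, ∑ i, algebraMap C K (c i) * (d (x i) / x i) = d v) (a : ι → ℤ)
    (ht : Transcendental C (∏ i, x i ^ a i)) :
    ∃ n : ι → ℤ, ∑ i, c i * (n i : C) = 0 ∧ ∑ i, a i * n i ≠ 0 := by
  set t := ∏ i, x i ^ a i with htd
  obtain ⟨k, hk, hal⟩ := ros_field ht
  have : CharZero K := charZero_of_injective_algebraMap (algebraMap C K).injective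
  have hinj : Function.Injective (aeval t : k[X] →ₐ[k] K) := transcendental_iff_injective.1 hk
  let φ : RatFunc k →ₐ[k] K := RatFunc.liftAlgHom (aeval t)
    (nonZeroDivisors_le_comap_nonZeroDivisors_of_injective _ hinj)
  have hφ : ∀ p : k[X], φ (algebraMap k[X] (RatFunc k) p) = aeval t p := fun p => by
    have := RatFunc.liftAlgHom_apply_div (aeval t : k[X] →ₐ[k] K)
      (nonZeroDivisors_le_comap_nonZeroDivisors_of_injective _ hinj) p 1
    simpa using this
  let : Algebra (RatFunc k) K := φ.toRingHom.toAlgebra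
  have : IsScalarTower k (RatFunc k) K := .of_algebraMap_eq fun r => (φ.commutes r).symm
  have : Algebra.IsAlgebraic (RatFunc k) K := by
    refine ⟨fun y => ?_⟩
    have hle : (Algebra.adjoin k {t}) ≤ φ.range := by
      refine Algebra.adjoin_le ?_
      rintro _ rfl
      exact ⟨algebraMap k[X] (RatFunc k) X, by rw [← aeval_X (R := k) t]; exact hφ X⟩
    have h1 := (hal y).tower_top_of_subalgebra_le hle
    let e : RatFunc k ≃ₐ[k] φ.range := AlgEquiv.ofInjectiveField φ
    refine (isAlgebraic_ringHom_iff_of_comp_eq e (RingHom.id K) Function.injective_id ?_).1 h1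
    ext f
    rfl
  obtain ⟨d₀, h₀⟩ := der_rat k
  obtain ⟨d₁, h₁⟩ := der_ext (C := k) (F := RatFunc k) (K := K)
    ((Algebra.linearMap (RatFunc k) K).compDer d₀)
  let W := AlgebraicClosure K
  obtain ⟨d₂, h₂⟩ := der_ext (C := k) (F := K) (K := W) ((Algebra.linearMap K W).compDer d₁)
  have h₂' : ∀ y, d₂ (algebraMap K W y) = algebraMap K W (d₁ y) := h₂
  have : Algebra.IsAlgebraic (RatFunc k) W := Algebra.IsAlgebraic.trans (RatFunc k) K W
  have : IsScalarTower k (RatFunc k) W := .of_algebraMap_eq fun r => by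
    rw [IsScalarTower.algebraMap_apply k K W, IsScalarTower.algebraMap_apply (RatFunc k) K W,
      ← IsScalarTower.algebraMap_apply k (RatFunc k) K]
  obtain ⟨n, n1, n2⟩ := ros_core (W := W) d₀ h₀ d₂ (fun f => by
      rw [IsScalarTower.algebraMap_apply (RatFunc k) K W, h₂', h₁,
        IsScalarTower.algebraMap_apply (RatFunc k) K W]
      rfl)
    (fun i => algebraMap K W (x i)) (fun i => by simpa using hx i) (algebraMap K W v)
    (fun i => algebraMap C k (c i)) (by
      have := congrArg (algebraMap K W) (h (d₁.restrictScalars C))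
      rw [map_sum] at this
      rw [h₂']
      refine Eq.trans (Finset.sum_congr rfl fun i _ => ?_) this
      rw [h₂', map_mul, map_div₀, IsScalarTower.algebraMap_apply k K W,
        ← IsScalarTower.algebraMap_apply C k K]
      rfl) a (by
      rw [IsScalarTower.algebraMap_apply (RatFunc k) K W, ← RatFunc.algebraMap_X]
      have : algebraMap (RatFunc k) K (algebraMap k[X] (RatFunc k) X) = t := by
        rw [← aeval_X (R := k) t]; exact hφ X
      rw [this, htd, map_prod]
      simp only [map_zpow₀])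
  refine ⟨n, (algebraMap C k).injective ?_, n2⟩
  rw [map_sum, map_zero, ← n1]
  simp

/-- Rosenlicht: for every additive map `φ : C → ℚ` and common denominator, the monomial with
exponents `φ (c i)` is algebraic. -/
theorem ros {C K ι : Type*} [Field C] [CharZero C] [Field K] [Algebra C K] [Fintype ι]
    (x : ι → K) (hx : ∀ i, x i ≠ 0) (v : K) (c : ι → C)
    (h : ∀ d : Derivation C K K, ∑ i, algebraMap C K (c i) * (d (x i) / x i) = d v)
    (φ : C →ₗ[ℚ] ℚ) (a : ι → ℤ) (ha : ∀ i, φ (c i) = a i) :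
    IsAlgebraic C (∏ i, x i ^ a i) := by
  by_contra ht
  obtain ⟨n, n1, n2⟩ := ros_aux x hx v c h a ht
  apply n2
  have := congrArg φ n1
  rw [map_sum, map_zero] at this
  have e : ∀ i, φ (c i * (n i : C)) = ((a i * n i : ℤ) : ℚ) := fun i => by
    rw [mul_comm, ← zsmul_eq_mul, map_zsmul, ha, zsmul_eq_mul]; push_cast; ring
  simp only [e] at this
  exact_mod_cast this

theorem ros_ne {C K ι : Type*} [Field C] [CharZero C] [Field K] [Algebra C K] [Fintype ι]
    (x : ι → K) (hx : ∀ i, x i ≠ 0) (v : K) (c : ι → C) (hc : c ≠ 0)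
    (h : ∀ d : Derivation C K K, ∑ i, algebraMap C K (c i) * (d (x i) / x i) = d v) :
    ∃ a : ι → ℤ, a ≠ 0 ∧ IsAlgebraic C (∏ i, x i ^ a i) := by
  classical
  obtain ⟨i₀, hi₀⟩ : ∃ i, c i ≠ 0 := Function.ne_iff.1 hc
  obtain ⟨φ, hφ⟩ := Module.Projective.exists_dual_ne_zero ℚ hi₀
  obtain ⟨b, hb⟩ := IsLocalization.exist_integer_multiples_of_finite (nonZeroDivisors ℤ)
    (fun i => φ (c i))
  choose a ha using hb
  have hb0 : ((b : ℤ) : ℚ) ≠ 0 := by exact_mod_cast nonZeroDivisors.coe_ne_zero b
  refine ⟨a, fun e => ?_, ros x hx v c h (((b : ℤ) : ℚ) • φ) a fun i => ?_⟩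
  · have := ha i₀
    rw [e] at this
    simp only [Pi.zero_apply, map_zero, zsmul_eq_mul] at this
    exact mul_ne_zero hb0 hφ this.symm
  · have := ha i
    simp only [zsmul_eq_mul, algebraMap_int_eq, eq_intCast] at this
    simp [this]

end Pool.Agent.MP_c1891a_nt.H83
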