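import Mathlib

/-! Liouville type gaps for polynomials over rings of cyclotomic integers. -/

namespace Pool.Agent.MP_c1891a_nt.H83

open Finset Polynomial

theorem mahler_le_of_circle (p : ℂ[X]) {B : ℝ} (hB : 0 ≤ B)
    (h : ∀ u : ℂ, ‖u‖ = 1 → ‖p.eval u‖ ≤ B) : p.mahlerMeasure ≤ B := by
  refine p.mahlerMeasure_le_sqrt_sum_sq_norm_coeff.trans ?_
  rw [p.sum_sq_norm_coeff_eq_circleAverage, Real.sqrt_le_left hB]
  refine Real.circleAverage_mono_on_of_le_circle ?_ fun x hx => ?_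
  · exact (Continuous.continuousOn (by fun_prop)).circleIntegrable (by norm_num)
  · have : ‖x‖ = 1 := by simpa using hx
    exact pow_le_pow_left₀ (norm_nonneg _) (h x this) 2

theorem eval_le (p : ℂ[X]) {z : ℂ} (hz : ‖z‖ ≤ 1) :
    ‖p.eval z‖ ≤ 2 ^ p.natDegree * p.mahlerMeasure := by
  rw [eval_eq_sum_range]
  refine (norm_sum_le _ _).trans ?_
  have : (2 : ℝ) ^ p.natDegree = ∑ i ∈ range (p.natDegree + 1), (p.natDegree.choose i : ℝ) := by
    exact_mod_cast (Nat.sum_range_choose p.natDegree).symm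
  rw [this, sum_mul]
  refine sum_le_sum fun i _ => ?_
  rw [norm_mul, norm_pow]
  exact (mul_le_of_le_one_right (norm_nonneg _) (pow_le_one₀ (norm_nonneg _) hz)).trans
    (norm_coeff_le_choose_mul_mahlerMeasure i p)

theorem eval_le_root (p : ℂ[X]) {z b : ℂ} (hz : ‖z‖ ≤ 1) (hb : p.eval b = 0) :
    ‖p.eval z‖ ≤ ‖b - z‖ * (2 ^ p.natDegree * p.mahlerMeasure) := by
  obtain ⟨r, rfl⟩ := dvd_iff_isRoot.2 hb
  by_cases hr : r = 0
  · simp [hr]
  rw [eval_mul, norm_mul, eval_sub, eval_X, eval_C, norm_sub_rev]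
  refine mul_le_mul_of_nonneg_left ((eval_le r hz).trans ?_) (norm_nonneg _)
  rw [mahlerMeasure_mul, mahlerMeasure_X_sub_C, natDegree_mul (X_sub_C_ne_zero b) hr]
  have := r.mahlerMeasure_nonneg
  refine mul_le_mul (pow_le_pow_right₀ (by norm_num) (by omega)) ?_ this (by positivity)
  exact le_mul_of_one_le_left this (le_max_left _ _)

/-- a family of embeddings with a product formula -/
structure LS {O S : Type} [CommRing O] [Fintype S] (φ : S → O →+* ℂ) : Prop where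
  inj : ∀ σ, Function.Injective (φ σ)
  prod : ∀ x : O, x ≠ 0 → 1 ≤ ∏ σ, ‖φ σ x‖

theorem LS.liou {O S : Type} [CommRing O] [Fintype S] {φ : S → O →+* ℂ} (L : LS φ) {g : ℕ}
    (hg : Fintype.card S ≤ g) (σ₀ : S) {x : O} (hx : x ≠ 0) {B t : ℝ} (hB : 1 ≤ B) (ht : 0 ≤ t)
    (h : ∀ σ, ‖φ σ x‖ ≤ B) (h₀ : ‖φ σ₀ x‖ ≤ t * B) : 1 ≤ t * B ^ g := by
  classical
  have h1 := L.prod x hx
  rw [← mul_prod_erase _ _ (mem_univ σ₀)] at h1
  have h2 : ∏ σ ∈ univ.erase σ₀, ‖φ σ x‖ ≤ B ^ (univ.erase σ₀).card := by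
    rw [← prod_const]
    exact prod_le_prod (fun _ _ => norm_nonneg _) fun σ _ => h σ
  have h3 : (univ.erase σ₀).card + 1 ≤ g := by
    rw [card_erase_add_one (mem_univ σ₀)]; exact hg
  calc 1 ≤ (t * B) * B ^ (univ.erase σ₀).card :=
        h1.trans (mul_le_mul h₀ h2 (prod_nonneg fun _ _ => norm_nonneg _) (by positivity))
    _ = t * B ^ ((univ.erase σ₀).card + 1) := by ring
    _ ≤ _ := mul_le_mul_of_nonneg_left (pow_le_pow_right₀ hB h3) ht

open IntermediateField NumberField in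
theorem exists_LS {ζ : ℂ} {g : ℕ} (hg : 0 < g) (hζ : ζ ^ g = 1) :
    ∃ (O S : Type) (_ : CommRing O) (_ : IsDomain O) (_ : Fintype S) (φ : S → O →+* ℂ) (σ₀ : S)
      (Y : ℤ → O), LS φ ∧ Fintype.card S ≤ g ∧ (∀ e, φ σ₀ (Y e) = ζ ^ e) ∧
        ∀ σ e, ‖φ σ (Y e)‖ = 1 := by
  have hi : IsIntegral ℤ ζ := IsIntegral.of_pow hg (hζ ▸ isIntegral_one)
  have hq : IsIntegral ℚ ζ := hi.tower_top
  have : FiniteDimensional ℚ ℚ⟮ζ⟯ := adjoin.finiteDimensional hq
  have : NumberField ℚ⟮ζ⟯ := ⟨⟩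
  let z : ℚ⟮ζ⟯ := AdjoinSimple.gen ℚ ζ
  have hz : z ^ g = 1 := Subtype.ext (by simpa [z] using hζ)
  let y : 𝓞 ℚ⟮ζ⟯ := ⟨z, IsIntegral.of_pow hg (hz ▸ isIntegral_one)⟩
  have hy : y ^ g = 1 := RingOfIntegers.ext (by simpa [y] using hz)
  refine ⟨𝓞 ℚ⟮ζ⟯, ℚ⟮ζ⟯ →ₐ[ℚ] ℂ, inferInstance, inferInstance, inferInstance,
    fun σ => σ.toRingHom.comp (algebraMap _ _), ℚ⟮ζ⟯.val, fun e => y ^ (e % g).toNat,
    ⟨fun σ => σ.toRingHom.injective.comp RingOfIntegers.coe_injective, fun x hx => ?_⟩, ?_,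
    fun e => ?_, fun σ e => ?_⟩
  · have h1 := Algebra.norm_eq_prod_embeddings ℚ ℂ (x : ℚ⟮ζ⟯)
    rw [← Algebra.coe_norm_int] at h1
    have h2 : Algebra.norm ℤ x ≠ 0 := Algebra.norm_ne_zero_iff.2 hx
    rw [← norm_prod]
    change 1 ≤ ‖∏ σ : ℚ⟮ζ⟯ →ₐ[ℚ] ℂ, σ x‖
    rw [← h1]
    simp only [eq_ratCast, Rat.cast_intCast, Complex.norm_intCast]
    exact_mod_cast Int.one_le_abs h2
  · rw [AlgHom.card, adjoin.finrank hq]
    have : (minpoly ℚ ζ).natDegree ≤ (X ^ g - C 1 : ℚ[X]).natDegree :=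
      natDegree_le_of_dvd (minpoly.dvd ℚ ζ (by simp [hζ])) (X_pow_sub_C_ne_zero hg 1)
    rwa [natDegree_X_pow_sub_C] at this
  · have h0 : ζ ≠ 0 := fun h => by simp [h, hg.ne'] at hζ
    have : (ℚ⟮ζ⟯.val.toRingHom.comp (algebraMap (𝓞 ℚ⟮ζ⟯) ℚ⟮ζ⟯)) y = ζ := rfl
    rw [map_pow, this, ← zpow_natCast, Int.toNat_of_nonneg (Int.emod_nonneg _ (by omega))]
    conv_rhs => rw [← Int.emod_add_mul_ediv e g, zpow_add₀ h0, zpow_mul, zpow_natCast, hζ]
    simp
  · rw [map_pow, norm_pow, Complex.norm_eq_one_of_pow_eq_one (n := g) ?_ hg.ne', one_pow]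
    rw [← map_pow, hy, map_one]

/-- the polynomial whose roots are the `m`-th powers of the roots -/
theorem exists_pow_roots {O : Type} [CommRing O] (R : O[X]) (m : ℕ) :
    ∃ T : O[X], ∀ φ : O →+* ℂ, Function.Injective φ → T.map φ =
      C ((R.map φ).leadingCoeff ^ m) * ((R.map φ).roots.map fun a => C (a ^ m) - X).prod := by
  refine ⟨resultant (R.map C) (X ^ m - C X) R.natDegree m, fun φ hφ => ?_⟩
  have h1 := resultant_map_map (R.map C) (X ^ m - C X) R.natDegree m (mapRingHom φ)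
  have h2 : (R.map C).map (mapRingHom φ) = (R.map φ).map C := by
    rw [Polynomial.map_map, Polynomial.map_map]; congr 1; ext <;> simp
  have h3 : (X ^ m - C X : O[X][X]).map (mapRingHom φ) = X ^ m - C X := by simp
  have hs := IsAlgClosed.splits (R.map φ)
  have h4 : R.natDegree = ((R.map φ).map (C : ℂ →+* ℂ[X])).natDegree := by
    rw [natDegree_map_eq_of_injective C_injective, natDegree_map_eq_of_injective hφ]
  rw [h2, h3, h4, resultant_eq_prod_eval _ _ _ (by rw [natDegree_sub_C, natDegree_X_pow])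
    (hs.map _), hs.roots_map_of_injective C_injective,
    leadingCoeff_map_of_injective C_injective, Multiset.map_map] at h1
  rw [← coe_mapRingHom, h4, ← h1, map_pow]
  congr 2
  refine Multiset.map_congr rfl fun a _ => ?_
  simp

theorem gap {O S : Type} [CommRing O] [IsDomain O] [Fintype S] {φ : S → O →+* ℂ} (L : LS φ)
    {g : ℕ} (hg : Fintype.card S ≤ g) (σ₀ : S) {R : O[X]} (hR : R ≠ 0) {W m : ℕ}
    (hW : R.natDegree ≤ W) {B : ℝ} (hB : 1 ≤ B) (hM : ∀ σ, (R.map (φ σ)).mahlerMeasure ≤ B)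
    {θ : O} (hθ : ∀ σ, ‖φ σ θ‖ ≤ 1) {a : ℂ} (ha : (R.map (φ σ₀)).eval a = 0)
    (hne : a ^ m ≠ φ σ₀ θ) : 1 ≤ ‖a ^ m - φ σ₀ θ‖ * (2 ^ W * B ^ m) ^ g := by
  obtain ⟨T, hT⟩ := exists_pow_roots R m
  have hR' : ∀ σ, R.map (φ σ) ≠ 0 := fun σ => (Polynomial.map_ne_zero_iff (L.inj σ)).2 hR
  have hx : ∀ b : ℂ, C b - X = C (-1) * (X - C b) := fun b => by simp
  have hTM : ∀ σ, (T.map (φ σ)).mahlerMeasure = (R.map (φ σ)).mahlerMeasure ^ m := fun σ => by
    rw [hT _ (L.inj σ), mahlerMeasure_mul, prod_mahlerMeasure_eq_mahlerMeasure_prod,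
      mahlerMeasure_eq_leadingCoeff_mul_prod_roots (R.map _), mul_pow, mahlerMeasure_const,
      norm_pow, ← Multiset.prod_map_pow, Multiset.map_map]
    congr 2
    refine Multiset.map_congr rfl fun b _ => ?_
    simp only [Function.comp, hx, mahlerMeasure_mul, mahlerMeasure_const, mahlerMeasure_X_sub_C,
      norm_neg, norm_one, one_mul, norm_pow]
    rcases le_total ‖b‖ 1 with h | h
    · rw [max_eq_left h, max_eq_left (pow_le_one₀ (norm_nonneg _) h), one_pow]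
    · rw [max_eq_right h, max_eq_right (one_le_pow₀ h)]
  have hT0 : T ≠ 0 := fun h => by
    have := hTM σ₀
    rw [h, Polynomial.map_zero, mahlerMeasure_zero] at this
    exact (pow_pos (mahlerMeasure_pos_of_ne_zero (hR' σ₀)) m).ne this
  have hTd : T.natDegree ≤ W := by
    rw [← natDegree_map_eq_of_injective (L.inj σ₀), hT _ (L.inj σ₀)]
    refine (natDegree_C_mul_le _ _).trans ((natDegree_multiset_prod_le _).trans ?_)
    refine (Multiset.sum_le_card_nsmul _ 1 fun n hn => ?_).trans ?_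
    · simp only [Multiset.map_map, Multiset.mem_map, Function.comp] at hn
      obtain ⟨b, -, rfl⟩ := hn
      rw [hx]
      exact (natDegree_C_mul_le _ _).trans (natDegree_X_sub_C_le _)
    · simpa using (card_roots' _).trans (natDegree_map_le.trans hW)
  have hTa : (T.map (φ σ₀)).eval (a ^ m) = 0 := by
    rw [hT _ (L.inj σ₀), eval_mul, eval_multiset_prod, Multiset.prod_eq_zero, mul_zero]
    simp only [Multiset.map_map, Multiset.mem_map, Function.comp]
    exact ⟨a, (mem_roots (hR' σ₀)).2 ha, by simp⟩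
  obtain ⟨T₁, e, hnd⟩ := exists_eq_pow_rootMultiplicity_mul_and_not_dvd T hT0 θ
  generalize T.rootMultiplicity θ = μ at e
  have hT₁ : T₁ ≠ 0 := fun h => hT0 (by rw [e, h, mul_zero])
  have e' : ∀ σ, T.map (φ σ) = (X - C (φ σ θ)) ^ μ * T₁.map (φ σ) := fun σ => by
    rw [e]; simp
  have hd₁ : T₁.natDegree ≤ W := (natDegree_le_of_dvd (Dvd.intro_left _ e.symm) hT0).trans hTd
  have hb : ∀ σ, 2 ^ (T₁.map (φ σ)).natDegree * (T₁.map (φ σ)).mahlerMeasure ≤ 2 ^ W * B ^ m := by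
    intro σ
    refine mul_le_mul (pow_le_pow_right₀ (by norm_num) (natDegree_map_le.trans hd₁)) ?_
      (mahlerMeasure_nonneg _) (by positivity)
    have h1 : ∀ k : ℕ, ((X - C (φ σ θ)) ^ k).mahlerMeasure = 1 := fun k => by
      induction k with
      | zero => simp
      | succ k ih => rw [pow_succ, mahlerMeasure_mul, ih, mahlerMeasure_X_sub_C, max_eq_left (hθ σ),
          one_mul]
    have h2 := hTM σ
    rw [e', mahlerMeasure_mul, h1, one_mul] at h2
    rw [h2]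
    exact pow_le_pow_left₀ (mahlerMeasure_nonneg _) (hM σ) m
  have hev : ∀ σ, φ σ (T₁.eval θ) = (T₁.map (φ σ)).eval (φ σ θ) := fun σ => by
    rw [eval_map, eval₂_hom]
  refine L.liou hg σ₀ (x := T₁.eval θ) (fun h => hnd (dvd_iff_isRoot.2 h))
    (one_le_mul_of_one_le_of_one_le (one_le_pow₀ (by norm_num)) (one_le_pow₀ hB)) (norm_nonneg _)
    (fun σ => ?_) ?_
  · rw [hev]
    exact (eval_le _ (hθ σ)).trans (hb σ)
  · rw [hev]
    refine (eval_le_root _ (hθ σ₀) (b := a ^ m) ?_).trans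
      (mul_le_mul_of_nonneg_left (hb σ₀) (norm_nonneg _))
    rw [e', eval_mul] at hTa
    refine (mul_eq_zero.1 hTa).resolve_left ?_
    rw [eval_pow, eval_sub, eval_X, eval_C]
    exact pow_ne_zero _ (sub_ne_zero.2 hne)

end Pool.Agent.MP_c1891a_nt.H83
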